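import Pool.Agent.H803R2.KakFTO

set_option autoImplicit false

/-!
Weighted Hölder inequality, strips and the fibre inequality.
-/

open MeasureTheory Set Filter Topology ENNReal NNReal Metric

namespace Pool.Agent.D0H50.Kak

open Pool.Agent.H803R2.KakFTO (Vec)

/-- weighted Jensen inequality -/
theorem wj {α : Type*} [MeasurableSpace α] (μ : Measure α) {r : ℝ} (hr : 1 ≤ r) {f w : α → ℝ≥0∞}
    (hf : AEMeasurable f μ) (hw : AEMeasurable w μ) (h0 : ∀ᵐ x ∂μ, w x ≠ 0)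
    (ht : ∀ᵐ x ∂μ, w x ≠ ∞) :
    (∫⁻ x, f x ∂μ) ^ r ≤ (∫⁻ x, f x ^ r * w x ^ (1 - r) ∂μ) * (∫⁻ x, w x ∂μ) ^ (r - 1) := by
  rcases eq_or_lt_of_le hr with h1 | h1
  · subst h1; simp
  have hr0 : 0 < r := by linarith
  have hr1 : 0 < r - 1 := by linarith
  set q := r / (r - 1) with hq
  have hq0 : 0 < q := div_pos hr0 hr1
  have hpq : r.HolderConjugate q := by
    rw [hq]; exact Real.HolderConjugate.conjExponent h1
  have hH := ENNReal.lintegral_mul_le_Lp_mul_Lq μ hpq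
    (f := fun x => f x * w x ^ ((1 - r) / r)) (g := fun x => w x ^ ((r - 1) / r))
    (hf.mul (hw.pow_const _)) (hw.pow_const _)
  have e1 : ∫⁻ x, f x ∂μ = ∫⁻ x, ((fun x => f x * w x ^ ((1 - r) / r)) *
      (fun x => w x ^ ((r - 1) / r))) x ∂μ := by
    apply lintegral_congr_ae
    filter_upwards [h0, ht] with x hx0 hxt
    simp only [Pi.mul_apply]
    rw [mul_assoc, ← ENNReal.rpow_add _ _ hx0 hxt]
    have : (1 - r) / r + (r - 1) / r = 0 := by ring
    rw [this, ENNReal.rpow_zero, mul_one]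
  have e2 : ∫⁻ x, (f x * w x ^ ((1 - r) / r)) ^ r ∂μ = ∫⁻ x, f x ^ r * w x ^ (1 - r) ∂μ := by
    apply lintegral_congr
    intro x
    rw [ENNReal.mul_rpow_of_nonneg _ _ hr0.le, ← ENNReal.rpow_mul, div_mul_cancel₀ _ hr0.ne']
  have e3 : ∫⁻ x, (w x ^ ((r - 1) / r)) ^ q ∂μ = ∫⁻ x, w x ∂μ := by
    apply lintegral_congr
    intro x
    have : (r - 1) / r * q = 1 := by rw [hq]; field_simp
    rw [← ENNReal.rpow_mul, this, ENNReal.rpow_one]
  rw [← e1, e2, e3] at hH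
  calc (∫⁻ x, f x ∂μ) ^ r
      ≤ ((∫⁻ x, f x ^ r * w x ^ (1 - r) ∂μ) ^ (1 / r) * (∫⁻ x, w x ∂μ) ^ (1 / q)) ^ r :=
        ENNReal.rpow_le_rpow hH hr0.le
    _ = _ := by
        rw [ENNReal.mul_rpow_of_nonneg _ _ hr0.le, ← ENNReal.rpow_mul, ← ENNReal.rpow_mul]
        have h2 : 1 / r * r = 1 := by field_simp
        have h3 : 1 / q * r = r - 1 := by rw [hq]; field_simp
        rw [h2, h3, ENNReal.rpow_one]

/-- Jensen -/
theorem jensen {α : Type*} [MeasurableSpace α] (μ : Measure α) [IsProbabilityMeasure μ] {r : ℝ}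
    (hr : 1 ≤ r) {f : α → ℝ≥0∞} (hf : AEMeasurable f μ) :
    (∫⁻ x, f x ∂μ) ^ r ≤ ∫⁻ x, f x ^ r ∂μ := by
  have := wj μ hr hf (w := fun _ => 1) aemeasurable_const (by simp) (by simp)
  simpa using this

/-- `ω^s ω^(-s) ≤ 1` -/
theorem rpow_mul_neg_le (x : ℝ≥0∞) (s : ℝ) : x ^ s * x ^ (-s) ≤ 1 := by
  rw [ENNReal.rpow_neg]
  exact ENNReal.mul_inv_le_one _

theorem h_le {H ω : ℝ≥0∞} (h : H ≤ ω) {p : ℝ} (hp : 1 ≤ p) : H ^ p * ω ^ (1 - p) ≤ H := by
  have e : H ^ p = H ^ (p - 1) * H := by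
    have h1 := ENNReal.rpow_add_of_nonneg (x := H) (p - 1) 1 (by linarith) zero_le_one
    rw [ENNReal.rpow_one, sub_add_cancel] at h1
    exact h1
  calc H ^ p * ω ^ (1 - p) = (H ^ (p - 1) * H) * ω ^ (1 - p) := by rw [e]
    _ ≤ (ω ^ (p - 1) * H) * ω ^ (1 - p) := by
        have : H ^ (p - 1) ≤ ω ^ (p - 1) := ENNReal.rpow_le_rpow h (by linarith)
        gcongr
    _ = H * (ω ^ (p - 1) * ω ^ (-(p - 1))) := by
        rw [show 1 - p = -(p - 1) by ring]; ring
    _ ≤ H * 1 := by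
        gcongr
        exact rpow_mul_neg_le _ _
    _ = H := mul_one _

variable {d : ℕ}

/-- the intervals of length one quarter -/
def I4 (k : ℤ) : Set ℝ := Ico ((k : ℝ) / 4) (((k : ℝ) + 1) / 4)

theorem measurableSet_I4 (k : ℤ) : MeasurableSet (I4 k) := measurableSet_Ico

theorem volume_I4 (k : ℤ) : volume (I4 k) ≤ 1 := by
  rw [I4, Real.volume_Ico]
  have : ((k : ℝ) + 1) / 4 - (k : ℝ) / 4 = 1 / 4 := by ring
  rw [this]
  rw [show (1 : ℝ≥0∞) = ENNReal.ofReal 1 by simp]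
  exact ENNReal.ofReal_le_ofReal (by norm_num)

instance (k : ℤ) : IsFiniteMeasure (volume.restrict (I4 k)) := by
  constructor
  rw [Measure.restrict_apply_univ]
  exact (volume_I4 k).trans_lt (by simp)

/-- normalised Lebesgue measure on the ball of radius `r` -/
noncomputable def bm (d : ℕ) (r : ℝ) : Measure (Vec d) :=
  (volume (closedBall (0 : Vec d) r))⁻¹ • volume.restrict (closedBall 0 r)

theorem bm_prob {r : ℝ} (hr : 0 < r) : IsProbabilityMeasure (bm d r) := by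
  constructor
  rw [bm, Measure.smul_apply, Measure.restrict_apply_univ, smul_eq_mul]
  exact ENNReal.inv_mul_cancel (Pool.Agent.H803R2.Kak.vol_pos hr).ne'
    (Pool.Agent.H803R2.Kak.vol_lt_top).ne

/-- the integral of the averages over the balls of radius `r` along the `k`-th piece of the line
number `v` -/
noncomputable def strip (r : ℝ) (g : Vec d × ℝ → ℝ≥0∞) (b : Vec d → Vec d) (k : ℤ)
    (v : Vec d) : ℝ≥0∞ :=
  ∫⁻ t in I4 k, ∫⁻ w, g (b v + t • v + w, t) ∂(bm d r)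

/-- the strip estimate, for functions that vanish at the heights outside `T` -/
def SB (T : Set ℝ) (r : ℝ) (b : Vec d → Vec d) (B : Set (Vec d)) (p : ℝ) (K : ℝ≥0∞) : Prop :=
  ∀ g : Vec d × ℝ → ℝ≥0∞, Measurable g → (∀ y t, t ∉ T → g (y, t) = 0) → ∀ k : ℤ,
    ∫⁻ v in B, strip r g b k v ^ p ≤ K * ∫⁻ t in I4 k, ∫⁻ y, g (y, t) ^ p

theorem strip_eq {r : ℝ} (hr : 0 < r) {g : Vec d × ℝ → ℝ≥0∞} (hg : Measurable g)
    (b : Vec d → Vec d) (k : ℤ) (v : Vec d) :
    strip r g b k v = ∫⁻ z : ℝ × Vec d, g (b v + z.1 • v + z.2, z.1)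
      ∂((volume.restrict (I4 k)).prod (bm d r)) := by
  have := bm_prob (d := d) hr
  have hm : Measurable (fun z : ℝ × Vec d => g (b v + z.1 • v + z.2, z.1)) := by
    apply hg.comp
    fun_prop
  rw [lintegral_prod _ hm.aemeasurable]
  rfl

/-- the fibre inequality -/
theorem fibre {W : Type*} [MeasurableSpace W] (τ : Measure W) [IsProbabilityMeasure τ] {p₁ q : ℝ}
    (h1 : 1 ≤ p₁) (hq : 1 ≤ q) {T : Set ℝ} {r : ℝ} (hr : 0 < r) {β : Vec d → Vec d}
    {B : Set (Vec d)} {K : ℝ≥0∞} (hK : K ≠ 0) (hKt : K ≠ ∞) (hS : SB T r β B q K)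
    {G : W × (Vec d × ℝ) → ℝ≥0∞} (hG : Measurable G) (hGT : ∀ w y t, t ∉ T → G (w, (y, t)) = 0)
    (k : ℤ) :
    ∫⁻ v in B, strip r (fun x => ∫⁻ w, G (w, x) ∂τ) β k v ^ (p₁ + q - 1) ≤
      K * (∫⁻ t in I4 k, ∫⁻ w, (∫⁻ y, G (w, (y, t)) ^ (p₁ + q - 1)) ^ (1 / p₁) ∂τ) ^ p₁ := by
  have := bm_prob (d := d) hr
  have hp10 : 0 < p₁ := by linarith
  have hq0 : 0 < q := by linarith
  set p := p₁ + q - 1 with hp
  have hp1 : 1 ≤ p := by linarith
  have hqp : q ≤ p := by linarith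
  have hp0 : 0 < p := by linarith
  set ρ := p / q with hρ
  have hρ1 : 1 ≤ ρ := by rw [hρ, le_div_iff₀ hq0]; linarith
  have hρq : ρ * q = p := by rw [hρ]; field_simp
  set H : W → ℝ → ℝ≥0∞ := fun w t => (∫⁻ y, G (w, (y, t)) ^ p) ^ (1 / p₁) with hH
  have hHm : Measurable (fun x : W × ℝ => H x.1 x.2) := by
    simp only [hH]
    apply Measurable.pow_const
    have h2 : Measurable (fun z : (W × ℝ) × Vec d => G (z.1.1, (z.2, z.1.2)) ^ p) := by
      apply Measurable.pow_const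
      apply hG.comp
      fun_prop
    exact h2.lintegral_prod_right'
  set Z₀ := ∫⁻ t in I4 k, ∫⁻ w, H w t ∂τ with hZ₀
  by_cases hZt : Z₀ = ∞
  · rw [hZt, ENNReal.top_rpow_of_pos hp10, ENNReal.mul_top hK]
    exact le_top
  have main : ∀ ε : ℝ≥0∞, ε ≠ 0 → ε ≠ ∞ →
      ∫⁻ v in B, strip r (fun x => ∫⁻ w, G (w, x) ∂τ) β k v ^ p ≤
        (Z₀ + ε) ^ (p₁ - 1) * (K * Z₀) := by
    intro ε hε hεt
    set om : W → ℝ → ℝ≥0∞ := fun w t => H w t + ε with hom
    have homm : Measurable (fun x : W × ℝ => om x.1 x.2) := hHm.add_const ε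
    set μ₂ := (volume.restrict (I4 k)).prod (bm d r) with hμ₂
    have hGv : ∀ v : Vec d, Measurable (fun u : (ℝ × Vec d) × W =>
        G (u.2, (β v + u.1.1 • v + u.1.2, u.1.1))) := by
      intro v
      apply hG.comp
      fun_prop
    have hωu : Measurable (fun u : (ℝ × Vec d) × W => om u.2 u.1.1) :=
      homm.comp (by fun_prop : Measurable (fun u : (ℝ × Vec d) × W => (u.2, u.1.1)))
    have hZ : ∫⁻ u : (ℝ × Vec d) × W, om u.2 u.1.1 ∂(μ₂.prod τ) ≤ Z₀ + ε := by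
      have hm1 : Measurable (fun z : ℝ × Vec d => ∫⁻ w, om w z.1 ∂τ) := hωu.lintegral_prod_right'
      rw [lintegral_prod _ hωu.aemeasurable, hμ₂, lintegral_prod _ hm1.aemeasurable]
      simp only [lintegral_const, measure_univ, mul_one]
      simp only [hom]
      have e1 : ∀ t, ∫⁻ w, (H w t + ε) ∂τ = ∫⁻ w, H w t ∂τ + ε := by
        intro t
        rw [lintegral_add_right _ measurable_const, lintegral_const, measure_univ, mul_one]
      simp only [e1]
      rw [lintegral_add_right _ measurable_const, lintegral_const, Measure.restrict_apply_univ]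
      calc _ ≤ Z₀ + ε * 1 := by
            gcongr
            exact volume_I4 k
        _ = Z₀ + ε := by rw [mul_one]
    have hZlt : Z₀ + ε < ∞ := ENNReal.add_lt_top.2 ⟨lt_top_iff_ne_top.2 hZt, lt_top_iff_ne_top.2 hεt⟩
    have hfin : ∀ᵐ u : (ℝ × Vec d) × W ∂(μ₂.prod τ), om u.2 u.1.1 ≠ ∞ := by
      have := ae_lt_top hωu (hZ.trans_lt hZlt).ne
      filter_upwards [this] with u hu using hu.ne
    set G₁ : Vec d × ℝ → ℝ≥0∞ := fun x => ∫⁻ w, G (w, x) ^ ρ * om w x.2 ^ (1 - ρ) ∂τ with hG₁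
    have hG₁i : Measurable (fun z : (Vec d × ℝ) × W => G (z.2, z.1) ^ ρ * om z.2 z.1.2 ^ (1 - ρ)) := by
      apply Measurable.mul
      · apply Measurable.pow_const
        exact hG.comp (by fun_prop)
      · apply Measurable.pow_const
        exact homm.comp (by fun_prop : Measurable (fun z : (Vec d × ℝ) × W => (z.2, z.1.2)))
    have hG₁m : Measurable G₁ := hG₁i.lintegral_prod_right'
    have hG₀m : Measurable (fun x : Vec d × ℝ => ∫⁻ w, G (w, x) ∂τ) := by
      have : Measurable (fun z : (Vec d × ℝ) × W => G (z.2, z.1)) := hG.comp (by fun_prop)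
      exact this.lintegral_prod_right'
    have hpt : ∀ v, strip r (fun x => ∫⁻ w, G (w, x) ∂τ) β k v ^ p ≤
        (Z₀ + ε) ^ (p₁ - 1) * strip r G₁ β k v ^ q := by
      intro v
      have e1 : strip r (fun x => ∫⁻ w, G (w, x) ∂τ) β k v =
          ∫⁻ u, G (u.2, (β v + u.1.1 • v + u.1.2, u.1.1)) ∂(μ₂.prod τ) := by
        rw [strip_eq hr hG₀m, lintegral_prod _ (hGv v).aemeasurable]
      have e2 : strip r G₁ β k v =
          ∫⁻ u, G (u.2, (β v + u.1.1 • v + u.1.2, u.1.1)) ^ ρ * om u.2 u.1.1 ^ (1 - ρ)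
            ∂(μ₂.prod τ) := by
        have hmm : Measurable (fun u : (ℝ × Vec d) × W =>
            G (u.2, (β v + u.1.1 • v + u.1.2, u.1.1)) ^ ρ * om u.2 u.1.1 ^ (1 - ρ)) :=
          ((hGv v).pow_const ρ).mul (hωu.pow_const (1 - ρ))
        rw [strip_eq hr hG₁m, lintegral_prod _ hmm.aemeasurable]
      have h2 := wj (μ₂.prod τ) hρ1 (hGv v).aemeasurable hωu.aemeasurable
        (Eventually.of_forall fun u => by
          simp only [hom]
          intro h
          exact hε (add_eq_zero.1 h).2) hfin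
      rw [← e1, ← e2] at h2
      calc strip r (fun x => ∫⁻ w, G (w, x) ∂τ) β k v ^ p
          = (strip r (fun x => ∫⁻ w, G (w, x) ∂τ) β k v ^ ρ) ^ q := by
            rw [← ENNReal.rpow_mul, hρq]
        _ ≤ (strip r G₁ β k v * (Z₀ + ε) ^ (ρ - 1)) ^ q := by
            refine ENNReal.rpow_le_rpow (h2.trans ?_) hq0.le
            gcongr
        _ = (Z₀ + ε) ^ (p₁ - 1) * strip r G₁ β k v ^ q := by
            rw [ENNReal.mul_rpow_of_nonneg _ _ hq0.le, ← ENNReal.rpow_mul, mul_comm]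
            congr 2
            rw [sub_mul, hρq, hp]; ring
    have hjen : ∀ y t, G₁ (y, t) ^ q ≤ ∫⁻ w, G (w, (y, t)) ^ p * om w t ^ (1 - p₁) ∂τ := by
      intro y t
      have hm2 : Measurable (fun w => G (w, (y, t)) ^ ρ * om w t ^ (1 - ρ)) :=
        hG₁i.comp (by fun_prop : Measurable (fun w : W => ((y, t), w)))
      refine (jensen τ hq hm2.aemeasurable).trans (le_of_eq ?_)
      apply lintegral_congr
      intro w
      rw [ENNReal.mul_rpow_of_nonneg _ _ hq0.le, ← ENNReal.rpow_mul, ← ENNReal.rpow_mul, hρq]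
      congr 2
      rw [sub_mul, hρq, hp]; ring
    have hint : ∫⁻ t in I4 k, ∫⁻ y, G₁ (y, t) ^ q ≤ Z₀ := by
      rw [hZ₀]
      apply lintegral_mono
      intro t
      simp only
      have hm3 : Measurable (fun z : Vec d × W => G (z.2, (z.1, t)) ^ p * om z.2 t ^ (1 - p₁)) := by
        apply Measurable.mul
        · apply Measurable.pow_const
          exact hG.comp (by fun_prop)
        · apply Measurable.pow_const
          exact homm.comp (by fun_prop : Measurable (fun z : Vec d × W => (z.2, t)))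
      calc ∫⁻ y, G₁ (y, t) ^ q ≤ ∫⁻ y, ∫⁻ w, G (w, (y, t)) ^ p * om w t ^ (1 - p₁) ∂τ :=
            lintegral_mono fun y => hjen y t
        _ = ∫⁻ w, (∫⁻ y, G (w, (y, t)) ^ p * om w t ^ (1 - p₁)) ∂τ :=
            lintegral_lintegral_swap hm3.aemeasurable
        _ ≤ ∫⁻ w, H w t ∂τ := by
            apply lintegral_mono
            intro w
            simp only
            have hm4 : Measurable (fun y : Vec d => G (w, (y, t)) ^ p) := by
              apply Measurable.pow_const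
              exact hG.comp (by fun_prop)
            rw [lintegral_mul_const _ hm4]
            have e3 : ∫⁻ y, G (w, (y, t)) ^ p = H w t ^ p₁ := by
              simp only [hH]
              rw [← ENNReal.rpow_mul, one_div, inv_mul_cancel₀ hp10.ne', ENNReal.rpow_one]
            rw [e3]
            exact h_le (by simp only [hom]; exact le_self_add) h1
    calc ∫⁻ v in B, strip r (fun x => ∫⁻ w, G (w, x) ∂τ) β k v ^ p
        ≤ ∫⁻ v in B, (Z₀ + ε) ^ (p₁ - 1) * strip r G₁ β k v ^ q := lintegral_mono fun v => hpt v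
      _ = (Z₀ + ε) ^ (p₁ - 1) * ∫⁻ v in B, strip r G₁ β k v ^ q := by
          rw [lintegral_const_mul']
          exact (ENNReal.rpow_lt_top_of_nonneg (by linarith) hZlt.ne).ne
      _ ≤ (Z₀ + ε) ^ (p₁ - 1) * (K * ∫⁻ t in I4 k, ∫⁻ y, G₁ (y, t) ^ q) := by
          gcongr
          refine hS G₁ hG₁m ?_ k
          intro y t ht
          simp only [hG₁, hGT _ y t ht, ENNReal.zero_rpow_of_pos (by linarith : 0 < ρ), zero_mul,
            lintegral_zero]
      _ ≤ (Z₀ + ε) ^ (p₁ - 1) * (K * Z₀) := by gcongr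
  -- the limit
  have hlim : Tendsto (fun n : ℕ => (Z₀ + ((n : ℝ≥0∞) + 1)⁻¹) ^ (p₁ - 1) * (K * Z₀)) atTop
      (𝓝 (Z₀ ^ (p₁ - 1) * (K * Z₀))) := by
    have h3 : Tendsto (fun n : ℕ => ((n : ℝ≥0∞) + 1)⁻¹) atTop (𝓝 0) := by
      have h4 := (tendsto_add_atTop_iff_nat 1).2 ENNReal.tendsto_inv_nat_nhds_zero
      simpa using h4
    have h5 : Tendsto (fun n : ℕ => Z₀ + ((n : ℝ≥0∞) + 1)⁻¹) atTop (𝓝 (Z₀ + 0)) :=
      tendsto_const_nhds.add h3
    rw [add_zero] at h5
    have h6 : Tendsto (fun n : ℕ => (Z₀ + ((n : ℝ≥0∞) + 1)⁻¹) ^ (p₁ - 1)) atTop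
        (𝓝 (Z₀ ^ (p₁ - 1))) := (ENNReal.continuous_rpow_const.tendsto _).comp h5
    exact ENNReal.Tendsto.mul_const h6 (Or.inr (ENNReal.mul_ne_top hKt hZt))
  have hle : ∫⁻ v in B, strip r (fun x => ∫⁻ w, G (w, x) ∂τ) β k v ^ p ≤
      Z₀ ^ (p₁ - 1) * (K * Z₀) := by
    refine ge_of_tendsto hlim (Eventually.of_forall fun n => main _ ?_ ?_)
    · exact ENNReal.inv_ne_zero.2 (ENNReal.add_ne_top.2 ⟨ENNReal.natCast_ne_top n, by simp⟩)
    · exact ENNReal.inv_ne_top.2 (by simp)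
  refine hle.trans (le_of_eq ?_)
  have h7 := ENNReal.rpow_add_of_nonneg (x := Z₀) (p₁ - 1) 1 (by linarith) zero_le_one
  rw [ENNReal.rpow_one, sub_add_cancel] at h7
  rw [h7]; ring

end Pool.Agent.D0H50.Kak
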