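import Pool.Agent.D0H50.Kak.Plane

set_option autoImplicit false

/-!
The class of families built by extensions, rotations and unions.
-/

open MeasureTheory Set Filter Topology ENNReal NNReal Metric

namespace Pool.Agent.D0H50.Kak

open Pool.Agent.H803R2.KakFTO Pool.Agent.H803R2.Kak

variable {d m n : ℕ}

section closure

theorem SB.mono {T : Set ℝ} {r p : ℝ} {B B' : Set (Vec d)} {b : Vec d → Vec d} {K K' : ℝ≥0∞}
    (h : SB T r b B p K) (hB : B' ⊆ B) (hK : K ≤ K') : SB T r b B' p K' := by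
  intro g hg hgT k
  calc _ ≤ ∫⁻ v in B, strip r g b k v ^ p := lintegral_mono_set hB
    _ ≤ K * ∫⁻ t in I4 k, ∫⁻ y, g (y, t) ^ p := h g hg hgT k
    _ ≤ _ := by gcongr

theorem SB.union {T : Set ℝ} {r p : ℝ} {B₁ B₂ : Set (Vec d)} {b : Vec d → Vec d} {K₁ K₂ : ℝ≥0∞}
    (h₁ : SB T r b B₁ p K₁) (h₂ : SB T r b B₂ p K₂) : SB T r b (B₁ ∪ B₂) p (K₁ + K₂) := by
  intro g hg hgT k
  calc _ ≤ (∫⁻ v in B₁, strip r g b k v ^ p) + ∫⁻ v in B₂, strip r g b k v ^ p :=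
        lintegral_union_le _ _ _
    _ ≤ _ := by
        rw [add_mul]
        exact add_le_add (h₁ g hg hgT k) (h₂ g hg hgT k)

theorem SB.congr {T : Set ℝ} {r p : ℝ} {B : Set (Vec d)} (hB : MeasurableSet B)
    {b b' : Vec d → Vec d} {K : ℝ≥0∞} (h : SB T r b B p K) (hbb : ∀ v ∈ B, b v = b' v) :
    SB T r b' B p K := by
  intro g hg hgT k
  refine le_trans (le_of_eq ?_) (h g hg hgT k)
  apply setLIntegral_congr_fun hB
  intro v hv
  simp only
  unfold strip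
  rw [hbb v hv]

theorem bm_rot (L : Vec d ≃ₗᵢ[ℝ] Vec d) (r : ℝ) (F : Vec d → ℝ≥0∞) :
    ∫⁻ w, F w ∂(bm d r) = ∫⁻ w, F (L w) ∂(bm d r) := by
  rw [lintegral_bm, lintegral_bm]
  congr 1
  rw [← L.measurePreserving.setLIntegral_comp_preimage_emb L.toMeasurableEquiv.measurableEmbedding]
  have : L ⁻¹' closedBall (0 : Vec d) r = closedBall 0 r := by
    ext w
    simp
  rw [this]

theorem SB.rotate {T : Set ℝ} {r p : ℝ} {B : Set (Vec d)} {b : Vec d → Vec d} {K : ℝ≥0∞}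
    (h : SB T r b B p K) (L : Vec d ≃ₗᵢ[ℝ] Vec d) :
    SB T r (fun v => L (b (L.symm v))) (L '' B) p K := by
  intro g hg hgT k
  have hemb := L.toMeasurableEquiv.measurableEmbedding
  have hLm : Measurable (fun x : Vec d × ℝ => (L x.1, x.2)) :=
    (L.continuous.measurable.comp measurable_fst).prodMk measurable_snd
  have e1 : ∫⁻ v in L '' B, strip r g (fun v => L (b (L.symm v))) k v ^ p =
      ∫⁻ u in B, strip r (fun x => g (L x.1, x.2)) b k u ^ p := by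
    rw [← L.measurePreserving.setLIntegral_comp_emb hemb]
    apply lintegral_congr
    intro u
    congr 1
    unfold strip
    apply lintegral_congr
    intro t
    rw [bm_rot L]
    apply lintegral_congr
    intro w
    simp
  rw [e1]
  refine (h _ (hg.comp hLm) (fun y t ht => hgT _ t ht) k).trans (le_of_eq ?_)
  congr 2
  ext t
  exact L.measurePreserving.lintegral_comp_emb hemb (fun y => g (y, t) ^ p)

end closure

theorem Est.mono {T : Set ℝ} {p δ K K' : ℝ} {B : Set (Vec d)} {b : Vec d → Vec d}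
    (h : Est T p δ K B b) (hK : K ≤ K') : Est T p δ K' B b := by
  intro f hf hfT
  refine (h f hf hfT).trans ?_
  gcongr

/-- `Built T δ d A B b`: the family `b` of lines in `ℝ^{d+1}` over the set `B` of directions is built,
with the cost `A`, from families in the plane and families with a known estimate. -/
inductive Built (T : Set ℝ) (δ : ℝ) : (d : ℕ) → ℝ → Set (Vec d) → (Vec d → Vec d) → Prop
  | plane (B : Set (Vec 1)) (b : Vec 1 → Vec 1) (hB : MeasurableSet B)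
      (hB1 : B ⊆ closedBall 0 1) (hb : Measurable b) : Built T δ 1 1 B b
  | known (d : ℕ) (A : ℝ) (B : Set (Vec d)) (b : Vec d → Vec d) (hd : 1 ≤ d) (hA : 0 < A)
      (hB : MeasurableSet B) (hB1 : B ⊆ closedBall 0 1) (hb : Measurable b)
      (h : Est T (d + 1) δ (A * (1 + Real.log (1 / δ)) ^ d) B b) : Built T δ d A B b
  | union (d : ℕ) (A₁ A₂ : ℝ) (B₁ B₂ : Set (Vec d)) (b : Vec d → Vec d)
      (h₁ : Built T δ d A₁ B₁ b) (h₂ : Built T δ d A₂ B₂ b) : Built T δ d (A₁ + A₂) (B₁ ∪ B₂) b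
  | congr (d : ℕ) (A : ℝ) (B : Set (Vec d)) (b b' : Vec d → Vec d) (hb' : Measurable b')
      (hbb : ∀ v ∈ B, b v = b' v) (h : Built T δ d A B b) : Built T δ d A B b'
  | rotate (d : ℕ) (A : ℝ) (B : Set (Vec d)) (b : Vec d → Vec d) (L : Vec d ≃ₗᵢ[ℝ] Vec d)
      (h : Built T δ d A B b) : Built T δ d A (L '' B) (fun v => L (b (L.symm v)))
  | extend (m n : ℕ) (A₁ A₂ : ℝ) (B₁ : Set (Vec m)) (b₁ : Vec m → Vec m) (B : Set (Vec (m + n)))
      (b₂ : Vec m → Vec n → Vec n) (hn : 1 ≤ n) (hA₂ : 0 < A₂) (hB : MeasurableSet B)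
      (hB1 : B ⊆ closedBall 0 1) (hb₂ : Measurable (fun x : Vec m × Vec n => b₂ x.1 x.2))
      (hsub : ∀ v ∈ B, hd v ∈ B₁) (h₁ : Built T δ m A₁ B₁ b₁)
      (h₂ : ∀ a ∈ B₁, Built T δ n A₂ {c | glue a c ∈ B} (b₂ a)) :
      Built T δ (m + n) (A₁ * A₂) B (ext b₁ b₂)

section constants

/-- constant for the basic families -/
noncomputable def k0 (d : ℕ) : ℝ≥0∞ :=
  ((cov d).card : ℝ≥0∞) ^ ((d : ℝ) + 1) * (3 * 8 ^ d) ^ ((d : ℝ) + 1) + cpl

/-- constant for the extensions -/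
noncomputable def k1 (m n : ℕ) : ℝ≥0∞ := kap m n ^ (((m : ℝ) + 1) + ((n : ℝ) + 1) - 1)

theorem k0_ne_top (d : ℕ) : k0 d ≠ ∞ := by
  unfold k0
  refine ENNReal.add_ne_top.2 ⟨ENNReal.mul_ne_top ?_ ?_, cpl_ne_top⟩
  · exact ENNReal.rpow_ne_top_of_nonneg (by positivity) (ENNReal.natCast_ne_top _)
  · exact ENNReal.rpow_ne_top_of_nonneg (by positivity) (ENNReal.mul_ne_top (by simp)
      (ENNReal.pow_ne_top (by simp)))

theorem k1_ne_top (m n : ℕ) : k1 m n ≠ ∞ :=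
  ENNReal.rpow_ne_top_of_nonneg (by have := Nat.cast_nonneg (α := ℝ) m; have := Nat.cast_nonneg (α := ℝ) n; linarith) kap_ne_top

/-- sum of the constants up to `d` -/
noncomputable def ka (d : ℕ) : ℝ≥0∞ :=
  1 + ∑ i ∈ Finset.range (d + 1), k0 i +
    ∑ i ∈ Finset.range (d + 1), ∑ j ∈ Finset.range (d + 1), k1 i j

theorem ka_ne_top (d : ℕ) : ka d ≠ ∞ := by
  unfold ka
  refine ENNReal.add_ne_top.2 ⟨ENNReal.add_ne_top.2 ⟨by simp, ?_⟩, ?_⟩
  · exact ENNReal.sum_ne_top.2 fun i _ => k0_ne_top i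
  · exact ENNReal.sum_ne_top.2 fun i _ => ENNReal.sum_ne_top.2 fun j _ => k1_ne_top i j

theorem one_le_ka (d : ℕ) : 1 ≤ ka d := by
  unfold ka
  rw [add_assoc]
  exact le_self_add

theorem ka_mono {a c : ℕ} (h : a ≤ c) : ka a ≤ ka c := by
  unfold ka
  have hs : Finset.range (a + 1) ⊆ Finset.range (c + 1) := Finset.range_subset_range.2 (by omega)
  refine add_le_add (add_le_add le_rfl (Finset.sum_le_sum_of_subset hs)) ?_
  exact (Finset.sum_le_sum fun i _ => Finset.sum_le_sum_of_subset hs).trans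
    (Finset.sum_le_sum_of_subset hs)

theorem k0_le_ka (d : ℕ) : k0 d ≤ ka d := by
  unfold ka
  have : k0 d ≤ ∑ i ∈ Finset.range (d + 1), k0 i :=
    Finset.single_le_sum (f := k0) (fun i _ => zero_le) (Finset.mem_range.2 (by omega))
  exact this.trans (le_trans le_add_self le_self_add)

theorem k1_le_ka (m n : ℕ) : k1 m n ≤ ka (m + n) := by
  unfold ka
  have h1 : k1 m n ≤ ∑ j ∈ Finset.range (m + n + 1), k1 m j :=
    Finset.single_le_sum (f := fun j => k1 m j) (fun i _ => zero_le) (Finset.mem_range.2 (by omega))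
  have h2 : ∑ j ∈ Finset.range (m + n + 1), k1 m j ≤
      ∑ i ∈ Finset.range (m + n + 1), ∑ j ∈ Finset.range (m + n + 1), k1 i j :=
    Finset.single_le_sum (f := fun i => ∑ j ∈ Finset.range (m + n + 1), k1 i j)
      (fun i _ => zero_le) (Finset.mem_range.2 (by omega))
  exact (h1.trans h2).trans le_add_self

/-- the constants of the class theorem -/
noncomputable def kc (d : ℕ) : ℝ≥0∞ := ka d ^ (2 * d - 1)

theorem kc_ne_top (d : ℕ) : kc d ≠ ∞ := ENNReal.pow_ne_top (ka_ne_top d)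

theorem one_le_kc (d : ℕ) : 1 ≤ kc d := one_le_pow₀ (one_le_ka d)

theorem k0_le_kc {d : ℕ} (hd : 1 ≤ d) : k0 d ≤ kc d := by
  refine (k0_le_ka d).trans ?_
  unfold kc
  calc ka d = ka d ^ 1 := (pow_one _).symm
    _ ≤ _ := pow_le_pow_right₀ (one_le_ka d) (by omega)

theorem k1_mul_le {m n : ℕ} (hm : 1 ≤ m) (hn : 1 ≤ n) : k1 m n * (kc n * kc m) ≤ kc (m + n) := by
  unfold kc
  calc k1 m n * (ka n ^ (2 * n - 1) * ka m ^ (2 * m - 1))
      ≤ ka (m + n) * (ka (m + n) ^ (2 * n - 1) * ka (m + n) ^ (2 * m - 1)) :=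
        mul_le_mul' (k1_le_ka m n) (mul_le_mul' (pow_le_pow_left' (ka_mono (by omega)) _)
          (pow_le_pow_left' (ka_mono (by omega)) _))
    _ = ka (m + n) ^ (2 * (m + n) - 1) := by
        rw [← pow_add, ← pow_succ']
        congr 1
        omega

end constants

/-- the strip estimate for the class -/
theorem built_sb {T : Set ℝ} {δ : ℝ} (hδ : 0 < δ) (hδ1 : δ < 1) {d : ℕ} {A : ℝ}
    {B : Set (Vec d)} {b : Vec d → Vec d} (h : Built T δ d A B b) :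
    1 ≤ d ∧ 0 < A ∧ MeasurableSet B ∧ B ⊆ closedBall 0 1 ∧ Measurable b ∧
      SB T (2 * δ) b B ((d : ℝ) + 1)
        (kc d * ENNReal.ofReal (A * (1 + Real.log (1 / δ)) ^ d)) := by
  have hlog : 0 ≤ Real.log (1 / δ) := Real.log_nonneg (by rw [le_div_iff₀ hδ]; linarith)
  set Λ := 1 + Real.log (1 / δ) with hΛ
  have hΛ0 : 0 < Λ := by linarith
  induction h with
  | plane B b hB hB1 hb =>
    refine ⟨le_rfl, one_pos, hB, hB1, hb, ?_⟩
    have h1 := sb_plane (T := T) hδ hδ1 hB hB1 hb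
    have e : ((1 : ℕ) : ℝ) + 1 = 2 := by norm_num
    rw [e]
    refine h1.mono subset_rfl ?_
    rw [one_mul, pow_one]
    refine mul_le_mul' ?_ le_rfl
    refine le_trans ?_ (k0_le_kc le_rfl)
    unfold k0
    exact le_add_self
  | known d A B b hd hA hB hB1 hb h =>
    refine ⟨hd, hA, hB, hB1, hb, ?_⟩
    have hd0 : (1 : ℝ) ≤ (d : ℝ) + 1 := by
      have := Nat.cast_nonneg (α := ℝ) d
      linarith
    have h1 := sb_eight (by linarith : 0 < δ / 4) hd0 hb (sb_of_est hd0 hδ hδ1 hB hB1 hb h)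
    have e8 : 8 * (δ / 4) = 2 * δ := by ring
    rw [e8] at h1
    refine h1.mono subset_rfl ?_
    rw [← mul_assoc]
    refine mul_le_mul' ?_ le_rfl
    refine le_trans ?_ (k0_le_kc hd)
    unfold k0
    exact le_self_add
  | union d A₁ A₂ B₁ B₂ b h₁ h₂ ih₁ ih₂ =>
    obtain ⟨hd, hA₁, hB₁, hB₁1, hb, hS₁⟩ := ih₁
    obtain ⟨-, hA₂, hB₂, hB₂1, -, hS₂⟩ := ih₂
    refine ⟨hd, by linarith, hB₁.union hB₂, union_subset hB₁1 hB₂1, hb, ?_⟩
    have h3 := hS₁.union hS₂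
    rw [← mul_add, ← ENNReal.ofReal_add (by positivity) (by positivity), ← add_mul] at h3
    exact h3
  | congr d A B b b' hb' hbb h ih =>
    obtain ⟨hd, hA, hB, hB1, hb, hS⟩ := ih
    exact ⟨hd, hA, hB, hB1, hb', hS.congr hB hbb⟩
  | rotate d A B b L h ih =>
    obtain ⟨hd, hA, hB, hB1, hb, hS⟩ := ih
    refine ⟨hd, hA, ?_, ?_, ?_, hS.rotate L⟩
    · exact L.toMeasurableEquiv.measurableEmbedding.measurableSet_image.2 hB
    · rintro _ ⟨v, hv, rfl⟩
      have := hB1 hv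
      simpa using this
    · exact L.continuous.measurable.comp (hb.comp L.symm.continuous.measurable)
  | extend m n A₁ A₂ B₁ b₁ B b₂ hn hA₂ hB hB1 hb₂ hsub h₁ h₂ ih₁ ih₂ =>
    obtain ⟨hm, hA₁, hB₁, hB₁1, hb₁, hS₁⟩ := ih₁
    refine ⟨by omega, mul_pos hA₁ hA₂, hB, hB1, measurable_ext hb₁ hb₂, ?_⟩
    have hm0 := Nat.cast_nonneg (α := ℝ) m
    have hn0 := Nat.cast_nonneg (α := ℝ) n
    have hK0 : kc n * ENNReal.ofReal (A₂ * Λ ^ n) ≠ 0 := by
      refine mul_ne_zero ?_ ?_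
      · exact (lt_of_lt_of_le (by simp) (one_le_kc n)).ne'
      · have : 0 < A₂ * Λ ^ n := by positivity
        simpa using this
    have hKt : kc n * ENNReal.ofReal (A₂ * Λ ^ n) ≠ ∞ :=
      ENNReal.mul_ne_top (kc_ne_top n) ENNReal.ofReal_ne_top
    have h3 := sb_ext (by linarith : (1:ℝ) ≤ (m:ℝ) + 1) (by linarith : (1:ℝ) ≤ (n:ℝ) + 1)
      (by linarith : 0 < 2 * δ) hb₁ hb₂ hB hB₁ hsub hK0 hKt hS₁ (fun a ha => (ih₂ a ha).2.2.2.2.2)
    have e1 : ((m:ℝ) + 1) + ((n:ℝ) + 1) - 1 = ((m + n : ℕ) : ℝ) + 1 := by push_cast; ring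
    have e2 : kap m n ^ (((m:ℝ) + 1) + ((n:ℝ) + 1) - 1) *
        ((kc n * ENNReal.ofReal (A₂ * Λ ^ n)) * (kc m * ENNReal.ofReal (A₁ * Λ ^ m))) ≤
        kc (m + n) * ENNReal.ofReal (A₁ * A₂ * Λ ^ (m + n)) := by
      have e3 : ENNReal.ofReal (A₁ * A₂ * Λ ^ (m + n)) =
          ENNReal.ofReal (A₂ * Λ ^ n) * ENNReal.ofReal (A₁ * Λ ^ m) := by
        rw [← ENNReal.ofReal_mul (by positivity)]
        congr 1
        rw [pow_add]; ring
      rw [e3]
      calc _ = (k1 m n * (kc n * kc m)) *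
            (ENNReal.ofReal (A₂ * Λ ^ n) * ENNReal.ofReal (A₁ * Λ ^ m)) := by
            rw [k1]; ring
        _ ≤ _ := mul_le_mul' (k1_mul_le hm hn) le_rfl
    have h4 := h3.mono subset_rfl e2
    rw [e1] at h4
    exact h4

/-- **the class theorem** -/
theorem built_est (d : ℕ) : ∃ C : ℝ, 0 < C ∧ ∀ (T : Set ℝ) (δ A : ℝ) (B : Set (Vec d))
    (b : Vec d → Vec d), MeasurableSet T → 0 < δ → δ < 1 → Built T δ d A B b →
    Est T (d + 1) δ (C * A * (1 + Real.log (1 / δ)) ^ d) B b := by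
  set C0 : ℝ≥0∞ := (52 * 8 ^ d) ^ ((d : ℝ) + 1) * kc d with hC0
  have hC0t : C0 ≠ ∞ := ENNReal.mul_ne_top (ENNReal.rpow_ne_top_of_nonneg (by positivity)
    (ENNReal.mul_ne_top (by simp) (ENNReal.pow_ne_top (by simp)))) (kc_ne_top d)
  have hC00 : C0 ≠ 0 := by
    refine mul_ne_zero ?_ (lt_of_lt_of_le (by simp) (one_le_kc d)).ne'
    rw [Ne, ENNReal.rpow_eq_zero_iff_of_pos (by positivity)]
    simp
  have hCr : 0 < C0.toReal := ENNReal.toReal_pos hC00 hC0t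
  refine ⟨C0.toReal, hCr, ?_⟩
  intro T δ A B b hT hδ hδ1 h f hf hfT
  obtain ⟨-, hA, hB, hB1, hb, hS⟩ := built_sb hδ hδ1 h
  have hlog : 0 ≤ Real.log (1 / δ) := Real.log_nonneg (by rw [le_div_iff₀ hδ]; linarith)
  have hd0 : (1 : ℝ) ≤ (d : ℝ) + 1 := by
    have := Nat.cast_nonneg (α := ℝ) d
    linarith
  refine (est_of_sb hd0 hδ hδ1 hB hB1 hb hT hS hf hfT).trans (le_of_eq ?_)
  congr 1
  rw [mul_assoc C0.toReal, ENNReal.ofReal_mul hCr.le, ENNReal.ofReal_toReal hC0t, hC0]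
  ring

end Pool.Agent.D0H50.Kak
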