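import Pool.Agent.D0H50.Kak.Est

set_option autoImplicit false

/-!
From the strips to the maximal function; the composition law.
-/

open MeasureTheory Set Filter Topology ENNReal NNReal Metric

namespace Pool.Agent.D0H50.Kak

open Pool.Agent.H803R2.KakFTO Pool.Agent.H803R2.Kak

variable {d m n : ℕ}

theorem mem_I4 (t : ℝ) : t ∈ I4 ⌊4 * t⌋ := by
  have h1 := Int.floor_le (4 * t)
  have h2 := Int.lt_floor_add_one (4 * t)
  constructor <;> linarith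

theorem iUnion_I4 : ⋃ k : ℤ, I4 k = univ := by
  rw [eq_univ_iff_forall]
  intro t
  exact mem_iUnion.2 ⟨_, mem_I4 t⟩

theorem disjoint_I4 : Pairwise (Function.onFun Disjoint I4) := by
  intro a b hab
  rw [Function.onFun, Set.disjoint_left]
  rintro t ⟨h1, h2⟩ ⟨h3, h4⟩
  apply hab
  have h5 : (a : ℝ) < b + 1 := by linarith
  have h6 : (b : ℝ) < a + 1 := by linarith
  have h7 : a < b + 1 := by exact_mod_cast h5
  have h8 : b < a + 1 := by exact_mod_cast h6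
  omega

theorem tsum_I4 (F : ℝ → ℝ≥0∞) : ∑' k : ℤ, ∫⁻ t in I4 k, F t = ∫⁻ t, F t := by
  rw [← lintegral_iUnion (fun k => measurableSet_I4 k) disjoint_I4, iUnion_I4,
    Measure.restrict_univ]

theorem window_le (F : ℝ → ℝ≥0∞) (h : ℝ) : ∫⁻ t in Icc h (h + 3), F t ≤
    ∑ j ∈ Finset.range 13, ∫⁻ t in I4 (⌊4 * h⌋ + j), F t := by
  refine le_trans (lintegral_mono_set ?_) (lintegral_biUnion_finset_le volume (Finset.range 13)
    (fun j : ℕ => I4 (⌊4 * h⌋ + j)) F)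
  rintro t ⟨h1, h2⟩
  rw [mem_iUnion₂]
  have h3 : ⌊4 * h⌋ ≤ ⌊4 * t⌋ := Int.floor_le_floor (by linarith)
  have h4 : ⌊4 * t⌋ < ⌊4 * h⌋ + 13 := by
    rw [Int.floor_lt]
    have := Int.lt_floor_add_one (4 * h)
    push_cast
    linarith
  refine ⟨(⌊4 * t⌋ - ⌊4 * h⌋).toNat, ?_, ?_⟩
  · rw [Finset.mem_range]; omega
  · have h5 : ⌊4 * h⌋ + ((⌊4 * t⌋ - ⌊4 * h⌋).toNat : ℤ) = ⌊4 * t⌋ := by omega
    rw [h5]
    exact mem_I4 t

theorem lineMax_rpow_le {p δ : ℝ} (hp : 1 ≤ p) (hδ : 0 < δ) (hδ1 : δ < 1) (b : Vec d → Vec d)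
    {v : Vec d} (hv : ‖v‖ ≤ 1) {f : Space d → ℝ} (hf : Measurable f) :
    lineMax δ b f v ^ p ≤ (52 * 8 ^ d) ^ p *
      ∑' k : ℤ, strip (2 * δ) (fun x => ‖f (WithLp.toLp 2 x)‖ₑ) b k v ^ p := by
  have hp0 : 0 < p := by linarith
  set g : Vec d × ℝ → ℝ≥0∞ := fun x => ‖f (WithLp.toLp 2 x)‖ₑ with hg
  set M := ∑' k : ℤ, strip (2 * δ) g b k v ^ p with hM
  have h1 : ∀ k, strip (2 * δ) g b k v ≤ M ^ (1 / p) := by
    intro k
    have h2 : strip (2 * δ) g b k v ^ p ≤ M :=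
      ENNReal.le_tsum (f := fun k : ℤ => strip (2 * δ) g b k v ^ p) k
    have h3 := ENNReal.rpow_le_rpow h2 (by positivity : 0 ≤ 1 / p)
    rwa [← ENNReal.rpow_mul, mul_one_div_cancel hp0.ne', ENNReal.rpow_one] at h3
  have h4 : ∀ h : ℝ, ∫⁻ t in Icc h (h + 3), moll (2 * δ) g (b v + t • v, t) ≤
      13 * M ^ (1 / p) := by
    intro h
    refine (window_le _ h).trans ?_
    have h5 : ∀ j ∈ Finset.range 13, ∫⁻ t in I4 (⌊4 * h⌋ + (j : ℤ)),
        moll (2 * δ) g (b v + t • v, t) ≤ M ^ (1 / p) := by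
      intro j _
      rw [← strip_eq_moll]
      exact h1 _
    refine (Finset.sum_le_sum h5).trans ?_
    rw [Finset.sum_const, Finset.card_range, nsmul_eq_mul]
    norm_num
  have h6 := lineMax_le hδ hδ1 b hv hf
  have h7 : lineMax δ b f v ≤ (52 * 8 ^ d) * M ^ (1 / p) := by
    refine h6.trans ?_
    calc _ ≤ (4 * 8 ^ d) * (13 * M ^ (1 / p)) := by
          gcongr
          exact iSup_le h4
      _ = (4 * 13) * 8 ^ d * M ^ (1 / p) := by ring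
      _ = _ := by norm_num
  calc lineMax δ b f v ^ p ≤ ((52 * 8 ^ d) * M ^ (1 / p)) ^ p := ENNReal.rpow_le_rpow h7 hp0.le
    _ = _ := by
        rw [ENNReal.mul_rpow_of_nonneg _ _ hp0.le, ← ENNReal.rpow_mul, one_div_mul_cancel hp0.ne',
          ENNReal.rpow_one]

/-- **from the strips to the maximal function** -/
theorem est_of_sb {T : Set ℝ} {p δ : ℝ} (hp : 1 ≤ p) (hδ : 0 < δ) (hδ1 : δ < 1) {B : Set (Vec d)}
    (hB : MeasurableSet B) (hB1 : B ⊆ closedBall 0 1) {b : Vec d → Vec d} (hb : Measurable b)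
    {K : ℝ≥0∞} (hT : MeasurableSet T) (h : SB T (2 * δ) b B p K) {f : Space d → ℝ}
    (hf : AEMeasurable f volume) (hfT : VanishesOff T f) :
    ∫⁻ v in B, lineMax δ b f v ^ p ≤ (52 * 8 ^ d) ^ p * K * ∫⁻ y, ‖f y‖ₑ ^ p := by
  have hp0 : 0 < p := by linarith
  have hmp := WithLp.volume_preserving_toLp (Vec d) ℝ
  have hme : MeasurableEmbedding (WithLp.toLp 2 : (Vec d) × ℝ → Space d) :=
    (MeasurableEquiv.toLp 2 ((Vec d) × ℝ)).measurableEmbedding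
  obtain ⟨F, hfm, hFe, hFT⟩ : ∃ F : Space d → ℝ, Measurable F ∧ f =ᵐ[volume] F ∧
      VanishesOff T F := by
    have hsn : Measurable (fun y : Space d => ((MeasurableEquiv.toLp 2 ((Vec d) × ℝ)).symm y).2) :=
      measurable_snd.comp (MeasurableEquiv.toLp 2 ((Vec d) × ℝ)).symm.measurable
    refine ⟨{y : Space d | ((MeasurableEquiv.toLp 2 ((Vec d) × ℝ)).symm y).2 ∈ T}.indicator
      (hf.mk f), hf.measurable_mk.indicator (hT.preimage hsn), ?_, ?_⟩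
    · filter_upwards [hf.ae_eq_mk] with y hy
      by_cases hyT : y ∈ {y : Space d | ((MeasurableEquiv.toLp 2 ((Vec d) × ℝ)).symm y).2 ∈ T}
      · rw [indicator_of_mem hyT, hy]
      · rw [indicator_of_notMem hyT]
        exact hfT _ _ hyT
    · intro y t ht
      rw [indicator_of_notMem]
      exact ht
  have e1 : ∀ v, lineMax δ b f v = lineMax δ b F v := fun v => lineMax_congr b v hFe
  have e2 : ∫⁻ y, ‖f y‖ₑ ^ p = ∫⁻ y, ‖F y‖ₑ ^ p := by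
    apply lintegral_congr_ae
    filter_upwards [hFe] with y hy
    rw [hy]
  simp only [e1]
  rw [e2]
  have hg : Measurable (fun x : Vec d × ℝ => ‖F (WithLp.toLp 2 x)‖ₑ) :=
    (hfm.comp hmp.measurable).enorm
  have h2δ : 0 < 2 * δ := by linarith
  have hC : ((52 : ℝ≥0∞) * 8 ^ d) ^ p ≠ ∞ := ENNReal.rpow_ne_top_of_nonneg hp0.le
      (ENNReal.mul_ne_top (by simp) (ENNReal.pow_ne_top (by simp)))
  calc ∫⁻ v in B, lineMax δ b F v ^ p
      ≤ ∫⁻ v in B, (52 * 8 ^ d) ^ p *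
          ∑' k : ℤ, strip (2 * δ) (fun x => ‖F (WithLp.toLp 2 x)‖ₑ) b k v ^ p := by
        apply setLIntegral_mono' hB
        intro v hv
        exact lineMax_rpow_le hp hδ hδ1 b (by simpa using hB1 hv) hfm
    _ = (52 * 8 ^ d) ^ p * ∑' k : ℤ, ∫⁻ v in B,
          strip (2 * δ) (fun x => ‖F (WithLp.toLp 2 x)‖ₑ) b k v ^ p := by
        rw [lintegral_const_mul' _ _ hC, lintegral_tsum]
        intro k
        exact ((measurable_strip h2δ hg hb k).pow_const p).aemeasurable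
    _ ≤ (52 * 8 ^ d) ^ p * ∑' k : ℤ, K * ∫⁻ t in I4 k, ∫⁻ y : Vec d,
          ‖F (WithLp.toLp 2 (y, t))‖ₑ ^ p := by
        gcongr with k
        refine h _ hg ?_ k
        intro y t ht
        simp [hFT y t ht]
    _ = (52 * 8 ^ d) ^ p * (K * ∫⁻ t, ∫⁻ y : Vec d, ‖F (WithLp.toLp 2 (y, t))‖ₑ ^ p) := by
        rw [ENNReal.tsum_mul_left, tsum_I4]
    _ = _ := by
        rw [← hmp.lintegral_comp_emb hme, Measure.volume_eq_prod,
          lintegral_prod_symm _ (hg.pow_const p).aemeasurable, mul_assoc]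

/-- constant of the composition law -/
noncomputable def ccl (m n : ℕ) (p₁ q : ℝ) : ℝ :=
  ((52 * 8 ^ (m + n) : ℝ≥0∞) ^ (p₁ + q - 1) * (kap m n ^ (p₁ + q - 1) *
    ((((cov n).card : ℝ≥0∞) ^ q * (3 * 8 ^ n) ^ q) * (((cov m).card : ℝ≥0∞) ^ p₁ *
      (3 * 8 ^ m) ^ p₁)))).toReal

theorem ccl_aux (m n : ℕ) {p₁ q : ℝ} (h1 : 1 ≤ p₁) (hq : 1 ≤ q) :
    (52 * 8 ^ (m + n) : ℝ≥0∞) ^ (p₁ + q - 1) * (kap m n ^ (p₁ + q - 1) *
    ((((cov n).card : ℝ≥0∞) ^ q * (3 * 8 ^ n) ^ q) * (((cov m).card : ℝ≥0∞) ^ p₁ *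
      (3 * 8 ^ m) ^ p₁))) = ENNReal.ofReal (ccl m n p₁ q) := by
  rw [ccl, ENNReal.ofReal_toReal]
  have h0 : ∀ (N : ℕ) (x : ℝ), 0 ≤ x → (N : ℝ≥0∞) ^ x ≠ ∞ := fun N x hx =>
    ENNReal.rpow_ne_top_of_nonneg hx (ENNReal.natCast_ne_top N)
  have h3 : ∀ (a k : ℕ) (x : ℝ), 0 ≤ x → ((a : ℝ≥0∞) * 8 ^ k) ^ x ≠ ∞ := fun a k x hx =>
    ENNReal.rpow_ne_top_of_nonneg hx (ENNReal.mul_ne_top (ENNReal.natCast_ne_top a)
      (ENNReal.pow_ne_top (by simp)))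
  refine ENNReal.mul_ne_top ?_ (ENNReal.mul_ne_top ?_ (ENNReal.mul_ne_top
    (ENNReal.mul_ne_top ?_ ?_) (ENNReal.mul_ne_top ?_ ?_)))
  · exact_mod_cast h3 52 (m + n) (p₁ + q - 1) (by linarith)
  · exact ENNReal.rpow_ne_top_of_nonneg (by linarith) kap_ne_top
  · exact h0 _ _ (by linarith)
  · exact_mod_cast h3 3 n q (by linarith)
  · exact h0 _ _ (by linarith)
  · exact_mod_cast h3 3 m p₁ (by linarith)

/-- **The composition law** -/
theorem composition {T : Set ℝ} (hT : MeasurableSet T) {p₁ q : ℝ} (h1 : 1 ≤ p₁) (hq : 1 ≤ q)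
    {δ : ℝ} (hδ : 0 < δ) (hδ1 : δ < 1)
    {b₁ : Vec m → Vec m} {b₂ : Vec m → Vec n → Vec n} (hb₁ : Measurable b₁)
    (hb₂ : Measurable (fun x : Vec m × Vec n => b₂ x.1 x.2)) {B : Set (Vec (m + n))}
    (hB : MeasurableSet B) (hBb : B ⊆ closedBall 0 1) {B₁ : Set (Vec m)} (hB₁ : MeasurableSet B₁)
    (hB₁b : B₁ ⊆ closedBall 0 1) (hsub : ∀ v ∈ B, hd v ∈ B₁) {K₁ K₂ : ℝ} (hK₁ : 0 ≤ K₁)
    (hK₂ : 0 < K₂) (S₁ : Est T p₁ δ K₁ B₁ b₁)
    (S₂ : ∀ a ∈ B₁, Est T q δ K₂ {c | glue a c ∈ B} (b₂ a)) :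
    Est T (p₁ + q - 1) δ (ccl m n p₁ q * (K₁ * K₂)) B (ext b₁ b₂) := by
  intro f hf hfT
  have hδ4 : 0 < δ / 4 := by linarith
  have hp10 : 0 < p₁ := by linarith
  have hq0 : 0 < q := by linarith
  have T₁ := sb_eight hδ4 h1 hb₁ (sb_of_est h1 hδ hδ1 hB₁ hB₁b hb₁ S₁)
  have T₂ : ∀ a ∈ B₁, SB T (8 * (δ / 4)) (b₂ a) {c | glue a c ∈ B} q
      (((cov n).card : ℝ≥0∞) ^ q * ((3 * 8 ^ n) ^ q * ENNReal.ofReal K₂)) := by
    intro a ha
    have hba : Measurable (b₂ a) := hb₂.comp (by fun_prop : Measurable (fun c : Vec n => (a, c)))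
    have hBa : MeasurableSet {c : Vec n | glue a c ∈ B} :=
      hB.preimage (measurable_glue.comp (by fun_prop : Measurable (fun c : Vec n => (a, c))))
    refine sb_eight hδ4 hq hba (sb_of_est hq hδ hδ1 hBa ?_ hba (S₂ a ha))
    intro c hc
    have h2 : ‖glue a c‖ ≤ 1 := by simpa using hBb hc
    have h3 := norm_tl_le (glue a c)
    rw [tl_glue] at h3
    simpa using h3.trans h2
  have e8 : 8 * (δ / 4) = 2 * δ := by ring
  rw [e8] at T₁ T₂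
  by_cases hcov : (cov n).card = 0
  · -- impossible: the cover is nonempty
    exfalso
    have h2 := cov_spec n (mem_closedBall_self (by norm_num : (0:ℝ) ≤ 8))
    rw [Finset.card_eq_zero] at hcov
    rw [hcov] at h2
    simp at h2
  have hK0 : ((cov n).card : ℝ≥0∞) ^ q * ((3 * 8 ^ n) ^ q * ENNReal.ofReal K₂) ≠ 0 := by
    refine mul_ne_zero ?_ (mul_ne_zero ?_ ?_)
    · rw [Ne, ENNReal.rpow_eq_zero_iff_of_pos hq0]
      exact_mod_cast hcov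
    · rw [Ne, ENNReal.rpow_eq_zero_iff_of_pos hq0]
      simp
    · simpa using hK₂
  have hKt : ((cov n).card : ℝ≥0∞) ^ q * ((3 * 8 ^ n) ^ q * ENNReal.ofReal K₂) ≠ ∞ := by
    refine ENNReal.mul_ne_top ?_ (ENNReal.mul_ne_top ?_ ENNReal.ofReal_ne_top)
    · exact ENNReal.rpow_ne_top_of_nonneg hq0.le (ENNReal.natCast_ne_top _)
    · exact ENNReal.rpow_ne_top_of_nonneg hq0.le (ENNReal.mul_ne_top (by simp)
        (ENNReal.pow_ne_top (by simp)))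
  have hsb := sb_ext h1 hq (by linarith : 0 < 2 * δ) hb₁ hb₂ hB hB₁ hsub hK0 hKt T₁ T₂
  have hfin := est_of_sb (by linarith : 1 ≤ p₁ + q - 1) hδ hδ1 hB hBb
    (measurable_ext hb₁ hb₂) hT hsb hf hfT
  have hc0 : 0 ≤ ccl m n p₁ q := ENNReal.toReal_nonneg
  refine hfin.trans (le_of_eq ?_)
  congr 1
  rw [ENNReal.ofReal_mul hc0, ENNReal.ofReal_mul hK₁, ← ccl_aux m n h1 hq]
  ring

end Pool.Agent.D0H50.Kak
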