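import Pool.Agent.D0H50.Kak.Glue

set_option autoImplicit false

/-!
Between the maximal function and the strips.
-/

open MeasureTheory Set Filter Topology ENNReal NNReal Metric

namespace Pool.Agent.D0H50.Kak

open Pool.Agent.H803R2.KakFTO Pool.Agent.H803R2.Kak

variable {d : ℕ}

/-- `f` vanishes at the heights outside `T`. -/
def VanishesOff (T : Set ℝ) (f : Space d → ℝ) : Prop :=
  ∀ (y : Vec d) (t : ℝ), t ∉ T → f (WithLp.toLp 2 (y, t)) = 0

/-- The `L^p` estimate with constant `K` for the maximal function of the family `b` over the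
directions in `B`, for the functions living at heights in `T`. -/
def Est (T : Set ℝ) (p δ K : ℝ) (B : Set (Vec d)) (b : Vec d → Vec d) : Prop :=
  ∀ f : Space d → ℝ, AEMeasurable f volume → VanishesOff T f →
    ∫⁻ v in B, lineMax δ b f v ^ p ≤ ENNReal.ofReal K * ∫⁻ y, ‖f y‖ₑ ^ p

theorem strip_eq_moll (r : ℝ) (g : Vec d × ℝ → ℝ≥0∞) (b : Vec d → Vec d) (k : ℤ) (v : Vec d) :
    strip r g b k v = ∫⁻ t in I4 k, moll r g (b v + t • v, t) := by
  unfold strip moll
  simp only [lintegral_bm]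

/-- finite additivity of the exponent -/
theorem vol_eight {r : ℝ} (hr : 0 < r) : volume (closedBall (0 : Vec d) (8 * r)) =
    8 ^ d * volume (closedBall (0 : Vec d) r) := by
  rw [vol_ball_scale (d := d) (r := 8 * r) (by linarith), vol_ball_scale (d := d) (r := r) hr,
    ← mul_assoc]
  congr 1
  rw [ENNReal.ofReal_mul (by norm_num), mul_pow]
  simp

theorem volume_tube_le {δ : ℝ} (hδ : 0 < δ) (hδ1 : δ < 1) (b : Vec d → Vec d) {v : Vec d}
    (hv : ‖v‖ ≤ 1) (s : ℝ) : volume (tube δ (dir v) (linePt b v s)) ≤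
      3 * 8 ^ d * volume (closedBall (0 : Vec d) (δ / 4)) := by
  have h1 := lintegral_tube_le hδ hδ1 b hv s (g := fun _ => 1) measurable_const
  have h2 : volume (closedBall (0 : Vec d) (2 * δ)) = 8 ^ d * volume (closedBall (0 : Vec d) (δ / 4)) := by
    rw [← vol_eight (by linarith : 0 < δ / 4)]
    congr 2
    ring
  have h3 : ∀ x : Vec d × ℝ, moll (2 * δ) (fun _ : Vec d × ℝ => (1 : ℝ≥0∞)) x = 1 := by
    intro x
    unfold moll
    rw [setLIntegral_one]
    exact ENNReal.inv_mul_cancel (vol_pos (by linarith)).ne' vol_lt_top.ne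
  rw [setLIntegral_one] at h1
  refine h1.trans ?_
  simp only [h3]
  rw [h2, lintegral_const, Measure.restrict_apply_univ, Real.volume_Icc, one_mul]
  have h4 : s - 3 / 2 + 3 - (s - 3 / 2) = 3 := by ring
  rw [h4, ENNReal.ofReal_ofNat]
  exact le_of_eq (by ring)

/-- the strips are controlled by the maximal function -/
theorem strip_le_lineMax {δ : ℝ} (hδ : 0 < δ) (hδ1 : δ < 1) (b : Vec d → Vec d) {v : Vec d}
    (hv : ‖v‖ ≤ 1) {f : Space d → ℝ} (hf : Measurable f) (k : ℤ) :
    strip (δ / 4) (fun x => ‖f (WithLp.toLp 2 x)‖ₑ) b k v ≤ 3 * 8 ^ d * lineMax δ b f v := by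
  have hmp := WithLp.volume_preserving_toLp (Vec d) ℝ
  have hme : MeasurableEmbedding (WithLp.toLp 2 : (Vec d) × ℝ → Space d) :=
    (MeasurableEquiv.toLp 2 ((Vec d) × ℝ)).measurableEmbedding
  have hg : Measurable (fun x : Vec d × ℝ => ‖f (WithLp.toLp 2 x)‖ₑ) :=
    (hf.comp hmp.measurable).enorm
  set s : ℝ := (k : ℝ) / 4 + 1 / 8 with hs
  set V := volume (closedBall (0 : Vec d) (δ / 4)) with hV
  have hV0 : V ≠ 0 := (vol_pos (by linarith)).ne'
  have hVt : V ≠ ∞ := vol_lt_top.ne
  set T := tube δ (dir v) (linePt b v s) with hT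
  have hTle : volume T ≤ 3 * 8 ^ d * V := volume_tube_le hδ hδ1 b hv s
  have hTt : volume T ≠ ∞ := by
    refine ne_top_of_le_ne_top ?_ hTle
    exact ENNReal.mul_ne_top (ENNReal.mul_ne_top (by simp) (ENNReal.pow_ne_top (by simp))) hVt
  have hT0 : volume T ≠ 0 := by
    have h1 := le_volume_tube hδ hδ1 b hv s
    intro h0
    rw [← hT, h0] at h1
    have h2 := le_antisymm h1 zero_le
    rcases mul_eq_zero.1 h2 with h3 | h3
    · norm_num at h3
    · exact hV0 h3
  have h1 : strip (δ / 4) (fun x => ‖f (WithLp.toLp 2 x)‖ₑ) b k v = V⁻¹ *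
      ∫⁻ p in {p : Vec d × ℝ | p.2 ∈ I4 k ∧ ‖p.1 - (b v + p.2 • v)‖ ≤ δ / 4},
        ‖f (WithLp.toLp 2 p)‖ₑ := by
    have e := lintegral_box hg (fun t => b v + t • v) (measurable_line b v) (I4 k)
      (measurableSet_I4 k) (δ / 4)
    rw [e]
    unfold strip
    simp only [lintegral_bm]
    rw [lintegral_const_mul' _ _ (ENNReal.inv_ne_top.2 hV0)]
  have h2 : ∫⁻ p in {p : Vec d × ℝ | p.2 ∈ I4 k ∧ ‖p.1 - (b v + p.2 • v)‖ ≤ δ / 4},
        ‖f (WithLp.toLp 2 p)‖ₑ ≤ ∫⁻ y in T, ‖f y‖ₑ := by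
    rw [← hmp.setLIntegral_comp_preimage_emb hme]
    apply lintegral_mono_set
    rintro ⟨z, t⟩ ⟨ht, hz⟩
    refine subset_tube hδ hδ1 b hv s ?_ hz
    have ht1 : (k : ℝ) / 4 ≤ t := ht.1
    have ht2 : t < ((k : ℝ) + 1) / 4 := ht.2
    constructor <;> rw [hs] <;> linarith
  have h3 : ∫⁻ y in T, ‖f y‖ₑ ≤ volume T * lineMax δ b f v := by
    have h4 : (volume T)⁻¹ * ∫⁻ y in T, ‖f y‖ₑ ≤ lineMax δ b f v :=
      le_iSup (fun s : ℝ => (volume (tube δ (dir v) (linePt b v s)))⁻¹ *
        ∫⁻ y in tube δ (dir v) (linePt b v s), ‖f y‖ₑ) s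
    calc ∫⁻ y in T, ‖f y‖ₑ = volume T * ((volume T)⁻¹ * ∫⁻ y in T, ‖f y‖ₑ) := by
          rw [← mul_assoc, ENNReal.mul_inv_cancel hT0 hTt, one_mul]
      _ ≤ _ := by gcongr
  calc strip (δ / 4) (fun x => ‖f (WithLp.toLp 2 x)‖ₑ) b k v
      ≤ V⁻¹ * (3 * 8 ^ d * V * lineMax δ b f v) := by
        rw [h1]
        gcongr
        exact h2.trans (h3.trans (by gcongr))
    _ = (V⁻¹ * V) * (3 * 8 ^ d * lineMax δ b f v) := by ring
    _ = _ := by rw [ENNReal.inv_mul_cancel hV0 hVt, one_mul]

theorem rpow_iSup {ι : Sort*} {p : ℝ} (hp : 0 < p) (a : ι → ℝ≥0∞) :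
    (⨆ i, a i) ^ p = ⨆ i, a i ^ p := by
  exact (ENNReal.orderIsoRpow p hp).map_iSup a

/-- **from the maximal function to the strips** -/
theorem sb_of_est {T : Set ℝ} {p δ K : ℝ} (hp : 1 ≤ p) (hδ : 0 < δ) (hδ1 : δ < 1) {B : Set (Vec d)}
    (hB : MeasurableSet B) (hB1 : B ⊆ closedBall 0 1) {b : Vec d → Vec d} (hb : Measurable b)
    (h : Est T p δ K B b) : SB T (δ / 4) b B p ((3 * 8 ^ d) ^ p * ENNReal.ofReal K) := by
  intro g hg hgT k
  have hp0 : 0 < p := by linarith
  have hδ4 : 0 < δ / 4 := by linarith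
  have := bm_prob (d := d) hδ4
  have hmp := WithLp.volume_preserving_toLp (Vec d) ℝ
  have hme : MeasurableEmbedding (WithLp.toLp 2 : (Vec d) × ℝ → Space d) :=
    (MeasurableEquiv.toLp 2 ((Vec d) × ℝ)).measurableEmbedding
  have hmo := (MeasurableEquiv.toLp 2 ((Vec d) × ℝ)).symm.measurable
  set J : Set (Vec d × ℝ) := {x | x.2 ∈ I4 k} with hJ
  have hJm : MeasurableSet J := (measurableSet_I4 k).preimage measurable_snd
  set gn : ℕ → Vec d × ℝ → ℝ≥0∞ := fun n x => J.indicator (fun x => min (g x) n) x with hgn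
  have hgnm : ∀ n, Measurable (gn n) := fun n => (hg.min measurable_const).indicator hJm
  have hgnt : ∀ n x, gn n x ≠ ∞ := by
    intro n x
    simp only [hgn]
    by_cases hx : x ∈ J
    · rw [indicator_of_mem hx]
      exact ne_top_of_le_ne_top (ENNReal.natCast_ne_top n) (min_le_right _ _)
    · rw [indicator_of_notMem hx]; simp
  have hgnle : ∀ n x, gn n x ≤ g x := by
    intro n x
    simp only [hgn]
    by_cases hx : x ∈ J
    · rw [indicator_of_mem hx]
      exact min_le_left _ _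
    · rw [indicator_of_notMem hx]; exact zero_le
  have hgnmono : Monotone gn := by
    intro a b hab x
    simp only [hgn]
    by_cases hx : x ∈ J
    · rw [indicator_of_mem hx, indicator_of_mem hx]
      exact min_le_min le_rfl (by exact_mod_cast hab)
    · rw [indicator_of_notMem hx, indicator_of_notMem hx]
  have hsup : ∀ x ∈ J, ⨆ n, gn n x = g x := by
    intro x hx
    simp only [hgn]
    simp only [indicator_of_mem hx]
    refine le_antisymm (iSup_le fun n => min_le_left _ _) ?_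
    by_cases hgx : g x = ∞
    · rw [hgx]
      simp only [min_eq_right le_top]
      rw [ENNReal.iSup_natCast]
    · obtain ⟨n, hn⟩ := ENNReal.exists_nat_gt hgx
      exact (le_min le_rfl hn.le).trans (le_iSup (fun n : ℕ => min (g x) n) n)
  have hone : ∀ n, ∫⁻ v in B, strip (δ / 4) (gn n) b k v ^ p ≤
      (3 * 8 ^ d) ^ p * ENNReal.ofReal K * ∫⁻ t in I4 k, ∫⁻ y, g (y, t) ^ p := by
    intro n
    set f : Space d → ℝ := fun y => (gn n ((MeasurableEquiv.toLp 2 ((Vec d) × ℝ)).symm y)).toReal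
      with hf
    have hfm : Measurable f := ((hgnm n).comp hmo).ennreal_toReal
    have hfg : (fun x : Vec d × ℝ => ‖f (WithLp.toLp 2 x)‖ₑ) = gn n := by
      ext x
      simp only [hf]
      have e1 : (MeasurableEquiv.toLp 2 ((Vec d) × ℝ)).symm (WithLp.toLp 2 x) = x := rfl
      rw [e1, Real.enorm_eq_ofReal ENNReal.toReal_nonneg, ENNReal.ofReal_toReal (hgnt n x)]
    have h1 : ∀ v ∈ B, strip (δ / 4) (gn n) b k v ^ p ≤ (3 * 8 ^ d) ^ p * lineMax δ b f v ^ p := by
      intro v hv
      have hv1 : ‖v‖ ≤ 1 := by simpa using hB1 hv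
      have h2 := strip_le_lineMax hδ hδ1 b hv1 hfm k
      rw [hfg] at h2
      rw [← ENNReal.mul_rpow_of_nonneg _ _ hp0.le]
      exact ENNReal.rpow_le_rpow h2 hp0.le
    have h3 : ∫⁻ y, ‖f y‖ₑ ^ p ≤ ∫⁻ t in I4 k, ∫⁻ y, g (y, t) ^ p := by
      rw [← hmp.lintegral_comp_emb hme]
      have e2 : ∀ x : Vec d × ℝ, ‖f (WithLp.toLp 2 x)‖ₑ ^ p = gn n x ^ p := by
        intro x
        rw [← hfg]
      simp only [e2]
      rw [Measure.volume_eq_prod, lintegral_prod_symm _ ((hgnm n).pow_const p).aemeasurable,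
        ← lintegral_indicator (measurableSet_I4 k)]
      apply lintegral_mono
      intro t
      by_cases ht : t ∈ I4 k
      · rw [indicator_of_mem ht]
        apply lintegral_mono
        intro y
        exact ENNReal.rpow_le_rpow (hgnle n (y, t)) hp0.le
      · rw [indicator_of_notMem ht]
        have e3 : ∀ y : Vec d, gn n (y, t) ^ p = 0 := by
          intro y
          simp only [hgn]
          rw [indicator_of_notMem (by simpa [hJ] using ht), ENNReal.zero_rpow_of_pos hp0]
        simp [e3]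
    have hC : ((3 : ℝ≥0∞) * 8 ^ d) ^ p ≠ ∞ := ENNReal.rpow_ne_top_of_nonneg hp0.le
      (ENNReal.mul_ne_top (by simp) (ENNReal.pow_ne_top (by simp)))
    calc ∫⁻ v in B, strip (δ / 4) (gn n) b k v ^ p
        ≤ ∫⁻ v in B, (3 * 8 ^ d) ^ p * lineMax δ b f v ^ p := setLIntegral_mono' hB h1
      _ = (3 * 8 ^ d) ^ p * ∫⁻ v in B, lineMax δ b f v ^ p := lintegral_const_mul' _ _ hC
      _ ≤ (3 * 8 ^ d) ^ p * (ENNReal.ofReal K * ∫⁻ y, ‖f y‖ₑ ^ p) := by
          gcongr
          refine h f hfm.aemeasurable ?_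
          intro y t ht
          have e4 : (MeasurableEquiv.toLp 2 ((Vec d) × ℝ)).symm (WithLp.toLp 2 (y, t)) = (y, t) := rfl
          have e5 : gn n (y, t) = 0 := le_antisymm ((hgnle n (y, t)).trans (hgT y t ht).le) zero_le
          simp only [hf]
          rw [e4, e5, ENNReal.toReal_zero]
      _ ≤ (3 * 8 ^ d) ^ p * (ENNReal.ofReal K * ∫⁻ t in I4 k, ∫⁻ y, g (y, t) ^ p) := by gcongr
      _ = _ := by ring
  have hstrip : ∀ v, strip (δ / 4) g b k v = ⨆ n, strip (δ / 4) (gn n) b k v := by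
    intro v
    have hz : ∀ {u : Vec d × ℝ → ℝ≥0∞}, Measurable u → Measurable (fun z : ℝ × Vec d =>
        u (b v + z.1 • v + z.2, z.1)) := by
      intro u hu
      apply hu.comp
      fun_prop
    have e1 : strip (δ / 4) g b k v = strip (δ / 4) (fun x => ⨆ n, gn n x) b k v := by
      unfold strip
      apply setLIntegral_congr_fun (measurableSet_I4 k)
      intro t ht
      simp only
      apply lintegral_congr
      intro w
      rw [hsup]
      exact ht
    have hgs : Measurable (fun x => ⨆ n, gn n x) := Measurable.iSup hgnm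
    rw [e1, strip_eq hδ4 hgs]
    have e2 : ∀ n, strip (δ / 4) (gn n) b k v = ∫⁻ z : ℝ × Vec d,
        gn n (b v + z.1 • v + z.2, z.1) ∂((volume.restrict (I4 k)).prod (bm d (δ / 4))) :=
      fun n => strip_eq hδ4 (hgnm n) b k v
    simp only [e2]
    rw [lintegral_iSup (fun n => hz (hgnm n))]
    intro a c hac z
    exact hgnmono hac _
  simp only [hstrip]
  simp only [rpow_iSup hp0]
  rw [lintegral_iSup]
  · exact iSup_le hone
  · intro n
    exact (measurable_strip hδ4 (hgnm n) hb k).pow_const p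
  · intro a c hac v
    simp only
    apply ENNReal.rpow_le_rpow _ hp0.le
    unfold strip
    apply lintegral_mono
    intro t
    apply lintegral_mono
    intro w
    exact hgnmono hac _

/-- the number of unit balls -/
theorem exists_cover (d : ℕ) : ∃ s : Finset (Vec d), closedBall (0 : Vec d) 8 ⊆
    ⋃ x ∈ s, closedBall x 1 := by
  obtain ⟨t, -, ht, hc⟩ := (isCompact_closedBall (0 : Vec d) 8).finite_cover_balls one_pos
  refine ⟨ht.toFinset, hc.trans ?_⟩
  apply iUnion_mono
  intro x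
  simp only [Finite.mem_toFinset]
  apply iUnion_mono
  intro _
  exact ball_subset_closedBall

/-- centres of unit balls that cover the ball of radius `8` -/
noncomputable def cov (d : ℕ) : Finset (Vec d) := (exists_cover d).choose

theorem cov_spec (d : ℕ) : closedBall (0 : Vec d) 8 ⊆ ⋃ x ∈ cov d, closedBall x 1 :=
  (exists_cover d).choose_spec

theorem lintegral_biUnion_finset_le {α β : Type*} [MeasurableSpace α] (μ : Measure α)
    (s : Finset β) (t : β → Set α) (f : α → ℝ≥0∞) :
    ∫⁻ x in ⋃ b ∈ s, t b, f x ∂μ ≤ ∑ b ∈ s, ∫⁻ x in t b, f x ∂μ := by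
  have h := lintegral_iUnion_le (μ := μ) (fun b : s => t b) f
  rw [tsum_fintype, Finset.sum_coe_sort s (fun b => ∫⁻ x in t b, f x ∂μ)] at h
  have e : ⋃ b ∈ s, t b = ⋃ b : s, t b := by
    ext x; simp
  rw [e]
  exact h

theorem strip_eight_le {r : ℝ} (hr : 0 < r) {g : Vec d × ℝ → ℝ≥0∞} (hg : Measurable g)
    (b : Vec d → Vec d) (k : ℤ) (v : Vec d) : strip (8 * r) g b k v ≤
      ∑ x ∈ cov d, strip r (fun z => g (z.1 + r • x, z.2)) b k v := by
  have hr8 : 0 < 8 * r := by linarith
  have := bm_prob (d := d) hr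
  have hm : ∀ x : Vec d, Measurable (fun t : ℝ => ∫⁻ w, g (b v + t • v + w + r • x, t) ∂(bm d r)) := by
    intro x
    have h2 : Measurable (fun u : ℝ × Vec d => g (b v + u.1 • v + u.2 + r • x, u.1)) := by
      apply hg.comp
      fun_prop
    exact h2.lintegral_prod_right'
  unfold strip
  rw [← lintegral_finsetSum _ (fun x _ => hm x)]
  apply lintegral_mono
  intro t
  simp only [lintegral_bm]
  rw [← Finset.mul_sum]
  have hV : (volume (closedBall (0 : Vec d) (8 * r)))⁻¹ ≤ (volume (closedBall (0 : Vec d) r))⁻¹ := by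
    rw [ENNReal.inv_le_inv]
    exact measure_mono (closedBall_subset_closedBall (by linarith))
  have hsub : closedBall (0 : Vec d) (8 * r) ⊆ ⋃ x ∈ cov d, closedBall (r • x) r := by
    intro w hw
    have h1 : r⁻¹ • w ∈ closedBall (0 : Vec d) 8 := by
      rw [mem_closedBall_zero_iff] at hw ⊢
      rw [norm_smul, Real.norm_eq_abs, abs_of_pos (inv_pos.2 hr), inv_mul_le_iff₀ hr]
      linarith
    have h2 := cov_spec d h1
    rw [mem_iUnion₂] at h2 ⊢
    obtain ⟨x, hx, h3⟩ := h2
    refine ⟨x, hx, ?_⟩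
    rw [mem_closedBall, dist_eq_norm] at h3 ⊢
    have h4 : w - r • x = r • (r⁻¹ • w - x) := by
      rw [smul_sub, smul_smul, mul_inv_cancel₀ hr.ne', one_smul]
    rw [h4, norm_smul, Real.norm_eq_abs, abs_of_pos hr]
    nlinarith
  calc (volume (closedBall (0 : Vec d) (8 * r)))⁻¹ *
        ∫⁻ w in closedBall 0 (8 * r), g (b v + t • v + w, t)
      ≤ (volume (closedBall (0 : Vec d) r))⁻¹ *
        ∫⁻ w in ⋃ x ∈ cov d, closedBall (r • x) r, g (b v + t • v + w, t) := by
        gcongr
    _ ≤ (volume (closedBall (0 : Vec d) r))⁻¹ *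
        ∑ x ∈ cov d, ∫⁻ w in closedBall (r • x) r, g (b v + t • v + w, t) := by
        gcongr
        exact lintegral_biUnion_finset_le _ _ _ _
    _ = _ := by
        congr 1
        apply Finset.sum_congr rfl
        intro x _
        have hmp : MeasurePreserving (fun w : Vec d => w + r • x) volume volume :=
          measurePreserving_add_right volume (r • x)
        have hemb : MeasurableEmbedding (fun w : Vec d => w + r • x) :=
          (MeasurableEquiv.addRight (r • x)).measurableEmbedding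
        rw [← hmp.setLIntegral_comp_preimage_emb hemb]
        have hpre : (fun w : Vec d => w + r • x) ⁻¹' closedBall (r • x) r = closedBall 0 r := by
          ext w
          simp [dist_eq_norm]
        rw [hpre]
        apply lintegral_congr
        intro w
        rw [← add_assoc]

/-- **larger radii** -/
theorem sb_eight {T : Set ℝ} {r p : ℝ} (hr : 0 < r) (hp : 1 ≤ p) {B : Set (Vec d)}
    {b : Vec d → Vec d} (hb : Measurable b) {K : ℝ≥0∞} (h : SB T r b B p K) :
    SB T (8 * r) b B p (((cov d).card : ℝ≥0∞) ^ p * K) := by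
  intro g hg hgT k
  have hp0 : 0 < p := by linarith
  have hgx : ∀ x : Vec d, Measurable (fun z : Vec d × ℝ => g (z.1 + r • x, z.2)) := by
    intro x
    apply hg.comp
    fun_prop
  have hN : ((cov d).card : ℝ≥0∞) ^ (p - 1) ≠ ∞ :=
    ENNReal.rpow_ne_top_of_nonneg (by linarith) (ENNReal.natCast_ne_top _)
  calc ∫⁻ v in B, strip (8 * r) g b k v ^ p
      ≤ ∫⁻ v in B, (∑ x ∈ cov d, strip r (fun z => g (z.1 + r • x, z.2)) b k v) ^ p := by
        apply lintegral_mono
        intro v
        exact ENNReal.rpow_le_rpow (strip_eight_le hr hg b k v) hp0.le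
    _ ≤ ∫⁻ v in B, ((cov d).card : ℝ≥0∞) ^ (p - 1) *
          ∑ x ∈ cov d, strip r (fun z => g (z.1 + r • x, z.2)) b k v ^ p := by
        apply lintegral_mono
        intro v
        exact ENNReal.rpow_sum_le_const_mul_sum_rpow _ _ hp
    _ = ((cov d).card : ℝ≥0∞) ^ (p - 1) *
          ∑ x ∈ cov d, ∫⁻ v in B, strip r (fun z => g (z.1 + r • x, z.2)) b k v ^ p := by
        rw [lintegral_const_mul' _ _ hN, lintegral_finsetSum]
        intro x _
        exact (measurable_strip hr (hgx x) hb k).pow_const p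
    _ ≤ ((cov d).card : ℝ≥0∞) ^ (p - 1) *
          ∑ x ∈ cov d, K * ∫⁻ t in I4 k, ∫⁻ y, g (y, t) ^ p := by
        gcongr with x hx
        refine (h _ (hgx x) (fun y t ht => hgT _ t ht) k).trans (le_of_eq ?_)
        congr 2
        ext t
        simp only
        exact lintegral_add_right_eq_self (fun y => g (y, t) ^ p) (r • x)
    _ = _ := by
        rw [Finset.sum_const, nsmul_eq_mul]
        have h7 := ENNReal.rpow_add_of_nonneg (x := ((cov d).card : ℝ≥0∞)) (p - 1) 1 (by linarith)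
          zero_le_one
        rw [ENNReal.rpow_one, sub_add_cancel] at h7
        rw [h7]; ring

end Pool.Agent.D0H50.Kak
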