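import Pool.Agent.D0H50.Kak.Class
import Pool.Agent.H805R3.Kk.Main

set_option autoImplicit false

/-!
The maximal function over all tubes along the fibres: measurable selection.
-/

open MeasureTheory Set Filter Topology ENNReal NNReal Metric

namespace Pool.Agent.D0H50.Kak

open Pool.Agent.H803R2.KakFTO Pool.Agent.H803R2.Kak

variable {d m n : ℕ}

/-- the strip along the line with direction `(v, 1)` through `(x, 0)` -/
noncomputable def sv (r : ℝ) (g : Vec d × ℝ → ℝ≥0∞) (k : ℤ) (x v : Vec d) : ℝ≥0∞ :=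
  strip r g (fun _ => x) k v

theorem strip_sv (r : ℝ) (g : Vec d × ℝ → ℝ≥0∞) (b : Vec d → Vec d) (k : ℤ) (v : Vec d) :
    strip r g b k v = sv r g k (b v) v := rfl

open Classical in
/-- measurable selection of the best among the first positions -/
noncomputable def sel (r : ℝ) (g : Vec (m + n) × ℝ → ℝ≥0∞) (k : ℤ) (b₁ : Vec m → Vec m)
    (y : ℕ → Vec n) : ℕ → Vec (m + n) → Vec n
  | 0 => fun _ => y 0
  | (N + 1) => fun v => if sv r g k (glue (b₁ (hd v)) (sel r g k b₁ y N v)) v <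
      sv r g k (glue (b₁ (hd v)) (y (N + 1))) v then y (N + 1) else sel r g k b₁ y N v

theorem measurable_sv {r : ℝ} (hr : 0 < r) {g : Vec (m + n) × ℝ → ℝ≥0∞} (hg : Measurable g) (k : ℤ)
    {b₁ : Vec m → Vec m} (hb₁ : Measurable b₁) {s : Vec (m + n) → Vec n} (hs : Measurable s) :
    Measurable (fun v => sv r g k (glue (b₁ (hd v)) (s v)) v) := by
  have hb : Measurable (fun v : Vec (m + n) => glue (b₁ (hd v)) (s v)) :=
    measurable_glue.comp ((hb₁.comp measurable_hd).prodMk hs)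
  exact measurable_strip hr hg hb k

theorem measurable_sel {r : ℝ} (hr : 0 < r) {g : Vec (m + n) × ℝ → ℝ≥0∞} (hg : Measurable g) (k : ℤ)
    {b₁ : Vec m → Vec m} (hb₁ : Measurable b₁) (y : ℕ → Vec n) (N : ℕ) :
    Measurable (sel r g k b₁ y N) := by
  induction N with
  | zero => exact measurable_const
  | succ N ih =>
    simp only [sel]
    refine Measurable.ite ?_ measurable_const ih
    exact measurableSet_lt (measurable_sv hr hg k hb₁ ih) (measurable_sv hr hg k hb₁ measurable_const)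

theorem sel_step (r : ℝ) (g : Vec (m + n) × ℝ → ℝ≥0∞) (k : ℤ) (b₁ : Vec m → Vec m)
    (y : ℕ → Vec n) (N : ℕ) (v : Vec (m + n)) :
    sv r g k (glue (b₁ (hd v)) (sel r g k b₁ y N v)) v ≤
      sv r g k (glue (b₁ (hd v)) (sel r g k b₁ y (N + 1) v)) v ∧
    sv r g k (glue (b₁ (hd v)) (y (N + 1))) v ≤
      sv r g k (glue (b₁ (hd v)) (sel r g k b₁ y (N + 1) v)) v := by
  by_cases h : sv r g k (glue (b₁ (hd v)) (sel r g k b₁ y N v)) v <
      sv r g k (glue (b₁ (hd v)) (y (N + 1))) v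
  · simp only [sel, if_pos h]
    exact ⟨h.le, le_rfl⟩
  · simp only [sel, if_neg h]
    exact ⟨le_rfl, not_lt.1 h⟩

theorem sel_mono (r : ℝ) (g : Vec (m + n) × ℝ → ℝ≥0∞) (k : ℤ) (b₁ : Vec m → Vec m)
    (y : ℕ → Vec n) (v : Vec (m + n)) :
    Monotone (fun N => sv r g k (glue (b₁ (hd v)) (sel r g k b₁ y N v)) v) :=
  monotone_nat_of_le_succ fun N => (sel_step r g k b₁ y N v).1

theorem le_sel (r : ℝ) (g : Vec (m + n) × ℝ → ℝ≥0∞) (k : ℤ) (b₁ : Vec m → Vec m)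
    (y : ℕ → Vec n) (j : ℕ) (v : Vec (m + n)) :
    sv r g k (glue (b₁ (hd v)) (y j)) v ≤
      ⨆ N, sv r g k (glue (b₁ (hd v)) (sel r g k b₁ y N v)) v := by
  refine le_trans ?_ (le_iSup (fun N => sv r g k (glue (b₁ (hd v)) (sel r g k b₁ y N v)) v) j)
  cases j with
  | zero => exact le_rfl
  | succ N => exact (sel_step r g k b₁ y N v).2

/-- the strip estimate for the supremum over a sequence of positions -/
theorem sb_sup {T : Set ℝ} {p₁ q : ℝ} (h1 : 1 ≤ p₁) (hq : 1 ≤ q) {r : ℝ} (hr : 0 < r)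
    {b₁ : Vec m → Vec m} (hb₁ : Measurable b₁) {B : Set (Vec (m + n))}
    (hB : MeasurableSet B) (hBb : B ⊆ closedBall 0 1) {B₁ : Set (Vec m)} (hB₁ : MeasurableSet B₁)
    (hsub : ∀ v ∈ B, hd v ∈ B₁)
    {K₁ K₂ : ℝ≥0∞} (hK : K₂ ≠ 0) (hKt : K₂ ≠ ∞) (S₁ : SB T r b₁ B₁ p₁ K₁)
    (S₂ : ∀ β : Vec n → Vec n, Measurable β → SB T r β (closedBall 0 1) q K₂) (y : ℕ → Vec n)
    {g : Vec (m + n) × ℝ → ℝ≥0∞} (hg : Measurable g) (hgT : ∀ x t, t ∉ T → g (x, t) = 0) (k : ℤ) :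
    ∫⁻ v in B, (⨆ j, sv r g k (glue (b₁ (hd v)) (y j)) v) ^ (p₁ + q - 1) ≤
      kap m n ^ (p₁ + q - 1) * (K₂ * K₁) *
        ∫⁻ t in I4 k, ∫⁻ x, g (x, t) ^ (p₁ + q - 1) := by
  have hp0 : 0 < p₁ + q - 1 := by linarith
  have hN : ∀ N, ∫⁻ v in B, sv r g k (glue (b₁ (hd v)) (sel r g k b₁ y N v)) v ^ (p₁ + q - 1) ≤
      kap m n ^ (p₁ + q - 1) * (K₂ * K₁) *
        ∫⁻ t in I4 k, ∫⁻ x, g (x, t) ^ (p₁ + q - 1) := by
    intro N
    have hs := measurable_sel hr hg k hb₁ y N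
    set b₂ : Vec m → Vec n → Vec n := fun a c => sel r g k b₁ y N (glue a c) with hb₂
    have hb₂m : Measurable (fun x : Vec m × Vec n => b₂ x.1 x.2) := hs.comp measurable_glue
    have hS₂ : ∀ a ∈ B₁, SB T r (b₂ a) {c | glue a c ∈ B} q K₂ := by
      intro a _
      refine (S₂ (b₂ a) (hb₂m.comp (by fun_prop : Measurable (fun c : Vec n => (a, c))))).mono
        ?_ le_rfl
      intro c hc
      have h2 : ‖glue a c‖ ≤ 1 := by simpa using hBb hc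
      have h3 := norm_tl_le (glue a c)
      rw [tl_glue] at h3
      simpa using h3.trans h2
    have h4 := sb_ext h1 hq hr hb₁ hb₂m hB hB₁ hsub hK hKt S₁ hS₂ g hg hgT k
    refine le_trans (le_of_eq ?_) h4
    apply lintegral_congr
    intro v
    rw [strip_sv]
    congr 3
    simp only [hb₂, glue_hd_tl]
  calc ∫⁻ v in B, (⨆ j, sv r g k (glue (b₁ (hd v)) (y j)) v) ^ (p₁ + q - 1)
      ≤ ∫⁻ v in B, ⨆ N, sv r g k (glue (b₁ (hd v)) (sel r g k b₁ y N v)) v ^ (p₁ + q - 1) := by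
        apply lintegral_mono
        intro v
        simp only
        rw [← rpow_iSup hp0]
        exact ENNReal.rpow_le_rpow (iSup_le fun j => le_sel r g k b₁ y j v) hp0.le
    _ = ⨆ N, ∫⁻ v in B, sv r g k (glue (b₁ (hd v)) (sel r g k b₁ y N v)) v ^ (p₁ + q - 1) := by
        rw [lintegral_iSup]
        · intro N
          exact (measurable_sv hr hg k hb₁ (measurable_sel hr hg k hb₁ y N)).pow_const _
        · intro a c hac v
          exact ENNReal.rpow_le_rpow (sel_mono r g k b₁ y v hac) hp0.le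
    _ ≤ _ := iSup_le hN

/-- The maximal function over all the tubes in the direction `(v, 1)` whose projection to
`ℝ^{m+1}` has its axis on the line number `hd v` of the family `b₁`. -/
noncomputable def fibreMax (δ : ℝ) (b₁ : Vec m → Vec m) (f : Space (m + n) → ℝ)
    (v : Vec (m + n)) : ℝ≥0∞ :=
  ⨆ y : Vec n, lineMax δ (fun _ => glue (b₁ (hd v)) y) f v

theorem glue_sub (a : Vec m) (c c' : Vec n) : ‖glue a c - glue a c'‖ = ‖c - c'‖ := by
  have h : glue a c - glue a c' = glue 0 (c - c') := by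
    rw [sub_eq_iff_eq_add, ← glue_add, zero_add, sub_add_cancel]
  have h2 := norm_glue_sq (0 : Vec m) (c - c')
  rw [h]
  rw [norm_zero] at h2
  have h3 : ‖glue (0 : Vec m) (c - c')‖ ^ 2 = ‖c - c'‖ ^ 2 := by rw [h2]; ring
  exact (pow_left_inj₀ (norm_nonneg _) (norm_nonneg _) (by norm_num)).1 h3

theorem sv_le {δ : ℝ} (hδ : 0 < δ) {g : Vec d × ℝ → ℝ≥0∞} (k : ℤ) {x x' v : Vec d}
    (h : ‖x - x'‖ ≤ δ) : sv (2 * δ) g k x v ≤ 8 ^ d * sv (8 * (2 * δ)) g k x' v := by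
  have h2δ : 0 < 2 * δ := by linarith
  have hV0 : volume (closedBall (0 : Vec d) (2 * δ)) ≠ 0 := (vol_pos h2δ).ne'
  have hVt : volume (closedBall (0 : Vec d) (2 * δ)) ≠ ∞ := vol_lt_top.ne
  unfold sv
  rw [strip_eq_moll, strip_eq_moll, ← lintegral_const_mul' _ _ (ENNReal.pow_ne_top (by simp))]
  apply lintegral_mono
  intro t
  simp only
  have h1 : ‖(x + t • v) - (x' + t • v)‖ ≤ 8 * (2 * δ) - 2 * δ := by
    have : (x + t • v) - (x' + t • v) = x - x' := by abel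
    rw [this]
    linarith
  refine (Pool.Agent.H805R3.Kk.moll_le_moll h2δ (by linarith) g h1 t).trans (le_of_eq ?_)
  rw [vol_eight h2δ]
  congr 1
  calc _ = ((volume (closedBall (0 : Vec d) (2 * δ)))⁻¹ * volume (closedBall (0 : Vec d) (2 * δ))) *
        8 ^ d := by ring
    _ = _ := by rw [ENNReal.inv_mul_cancel hV0 hVt, one_mul]

/-- **all tubes along the fibres, strip form** -/
theorem fibreMax_le {T : Set ℝ} (hT : MeasurableSet T) {p₁ q : ℝ} (h1 : 1 ≤ p₁) (hq : 1 ≤ q)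
    {δ : ℝ} (hδ : 0 < δ) (hδ1 : δ < 1)
    {b₁ : Vec m → Vec m} (hb₁ : Measurable b₁) {B : Set (Vec (m + n))}
    (hB : MeasurableSet B) (hBb : B ⊆ closedBall 0 1) {B₁ : Set (Vec m)} (hB₁ : MeasurableSet B₁)
    (hsub : ∀ v ∈ B, hd v ∈ B₁)
    {K₁ K₂ : ℝ≥0∞} (hK : K₂ ≠ 0) (hKt : K₂ ≠ ∞) (S₁ : SB T (8 * (2 * δ)) b₁ B₁ p₁ K₁)
    (S₂ : ∀ β : Vec n → Vec n, Measurable β → SB T (8 * (2 * δ)) β (closedBall 0 1) q K₂)
    {f : Space (m + n) → ℝ} (hf : AEMeasurable f volume) (hfT : VanishesOff T f) :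
    ∫⁻ v in B, fibreMax δ b₁ f v ^ (p₁ + q - 1) ≤
      ((52 * 8 ^ (m + n)) ^ (p₁ + q - 1) * (8 ^ (m + n)) ^ (p₁ + q - 1)) *
        (kap m n ^ (p₁ + q - 1) * (K₂ * K₁)) * ∫⁻ y, ‖f y‖ₑ ^ (p₁ + q - 1) := by
  have hp1 : 1 ≤ p₁ + q - 1 := by linarith
  set p := p₁ + q - 1 with hp
  have hp0 : 0 < p := by linarith
  have hmp := WithLp.volume_preserving_toLp (Vec (m + n)) ℝ
  have hme : MeasurableEmbedding (WithLp.toLp 2 : (Vec (m + n)) × ℝ → Space (m + n)) :=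
    (MeasurableEquiv.toLp 2 ((Vec (m + n)) × ℝ)).measurableEmbedding
  obtain ⟨F, hfm, hFe, hFT⟩ : ∃ F : Space (m + n) → ℝ, Measurable F ∧ f =ᵐ[volume] F ∧
      VanishesOff T F := by
    have hsn : Measurable (fun y : Space (m + n) =>
        ((MeasurableEquiv.toLp 2 ((Vec (m + n)) × ℝ)).symm y).2) :=
      measurable_snd.comp (MeasurableEquiv.toLp 2 ((Vec (m + n)) × ℝ)).symm.measurable
    refine ⟨{y : Space (m + n) |
      ((MeasurableEquiv.toLp 2 ((Vec (m + n)) × ℝ)).symm y).2 ∈ T}.indicator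
      (hf.mk f), hf.measurable_mk.indicator (hT.preimage hsn), ?_, ?_⟩
    · filter_upwards [hf.ae_eq_mk] with y hy
      by_cases hyT : y ∈ {y : Space (m + n) |
          ((MeasurableEquiv.toLp 2 ((Vec (m + n)) × ℝ)).symm y).2 ∈ T}
      · rw [indicator_of_mem hyT, hy]
      · rw [indicator_of_notMem hyT]
        exact hfT _ _ hyT
    · intro y t ht
      rw [indicator_of_notMem]
      exact ht
  have e1 : ∀ v, fibreMax δ b₁ f v = fibreMax δ b₁ F v := by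
    intro v
    unfold fibreMax
    congr 1
    ext y
    exact lineMax_congr _ v hFe
  have e2 : ∫⁻ y, ‖f y‖ₑ ^ p = ∫⁻ y, ‖F y‖ₑ ^ p := by
    apply lintegral_congr_ae
    filter_upwards [hFe] with y hy
    rw [hy]
  simp only [e1]
  rw [e2]
  set g : Vec (m + n) × ℝ → ℝ≥0∞ := fun x => ‖F (WithLp.toLp 2 x)‖ₑ with hgdef
  have hg : Measurable g := (hfm.comp hmp.measurable).enorm
  have hgT : ∀ x t, t ∉ T → g (x, t) = 0 := by
    intro x t ht
    simp [hgdef, hFT x t ht]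
  set r := 8 * (2 * δ) with hr
  have hr0 : 0 < r := by rw [hr]; linarith
  set y := TopologicalSpace.denseSeq (Vec n) with hy
  set M : ℤ → Vec (m + n) → ℝ≥0∞ := fun k v => (⨆ j, sv r g k (glue (b₁ (hd v)) (y j)) v) ^ p
    with hM
  have hMm : ∀ k, Measurable (M k) := by
    intro k
    apply Measurable.pow_const
    exact Measurable.iSup fun j => measurable_sv hr0 hg k hb₁ measurable_const
  have hC1 : ((52 : ℝ≥0∞) * 8 ^ (m + n)) ^ p ≠ ∞ := ENNReal.rpow_ne_top_of_nonneg hp0.le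
      (ENNReal.mul_ne_top (by simp) (ENNReal.pow_ne_top (by simp)))
  have hC2 : ((8 : ℝ≥0∞) ^ (m + n)) ^ p ≠ ∞ := ENNReal.rpow_ne_top_of_nonneg hp0.le
      (ENNReal.pow_ne_top (by simp))
  have hpt : ∀ v ∈ B, fibreMax δ b₁ F v ^ p ≤
      ((52 * 8 ^ (m + n)) ^ p * (8 ^ (m + n)) ^ p) * ∑' k : ℤ, M k v := by
    intro v hv
    have hv1 : ‖v‖ ≤ 1 := by simpa using hBb hv
    unfold fibreMax
    rw [rpow_iSup hp0]
    apply iSup_le
    intro z
    refine (lineMax_rpow_le hp1 hδ hδ1 _ hv1 hfm).trans ?_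
    rw [mul_assoc]
    refine mul_le_mul' le_rfl ?_
    rw [← ENNReal.tsum_mul_left]
    apply ENNReal.tsum_le_tsum
    intro k
    obtain ⟨j, hj⟩ := (TopologicalSpace.denseRange_denseSeq (Vec n)).exists_dist_lt z hδ
    have h2 : ‖glue (b₁ (hd v)) z - glue (b₁ (hd v)) (y j)‖ ≤ δ := by
      rw [glue_sub, ← dist_eq_norm]
      exact hj.le
    have h3 := sv_le hδ (g := g) k (v := v) h2
    rw [← ENNReal.mul_rpow_of_nonneg _ _ hp0.le]
    apply ENNReal.rpow_le_rpow _ hp0.le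
    refine h3.trans ?_
    refine mul_le_mul' le_rfl ?_
    exact le_iSup (fun j => sv r g k (glue (b₁ (hd v)) (y j)) v) j
  calc ∫⁻ v in B, fibreMax δ b₁ F v ^ p
      ≤ ∫⁻ v in B, ((52 * 8 ^ (m + n)) ^ p * (8 ^ (m + n)) ^ p) * ∑' k : ℤ, M k v :=
        setLIntegral_mono' hB hpt
    _ = ((52 * 8 ^ (m + n)) ^ p * (8 ^ (m + n)) ^ p) * ∑' k : ℤ, ∫⁻ v in B, M k v := by
        rw [lintegral_const_mul' _ _ (ENNReal.mul_ne_top hC1 hC2), lintegral_tsum]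
        intro k
        exact (hMm k).aemeasurable
    _ ≤ ((52 * 8 ^ (m + n)) ^ p * (8 ^ (m + n)) ^ p) * ∑' k : ℤ,
          (kap m n ^ p * (K₂ * K₁)) * ∫⁻ t in I4 k, ∫⁻ x : Vec (m + n), g (x, t) ^ p := by
        refine mul_le_mul' le_rfl (ENNReal.tsum_le_tsum fun k => ?_)
        exact sb_sup h1 hq hr0 hb₁ hB hBb hB₁ hsub hK hKt S₁ S₂ y hg hgT k
    _ = ((52 * 8 ^ (m + n)) ^ p * (8 ^ (m + n)) ^ p) * ((kap m n ^ p * (K₂ * K₁)) *
          ∫⁻ t, ∫⁻ x : Vec (m + n), g (x, t) ^ p) := by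
        rw [ENNReal.tsum_mul_left, tsum_I4]
    _ = _ := by
        rw [← hmp.lintegral_comp_emb hme, Measure.volume_eq_prod,
          lintegral_prod_symm _ (hg.pow_const p).aemeasurable]
        ring

/-- constant -/
noncomputable def cfm (m n : ℕ) (p₁ q : ℝ) : ℝ :=
  (((52 * 8 ^ (m + n)) ^ (p₁ + q - 1) * (8 ^ (m + n)) ^ (p₁ + q - 1)) *
    (kap m n ^ (p₁ + q - 1) * ((((cov n).card : ℝ≥0∞) ^ q * (((cov n).card : ℝ≥0∞) ^ q *
      (3 * 8 ^ n) ^ q)) * (((cov m).card : ℝ≥0∞) ^ p₁ * (((cov m).card : ℝ≥0∞) ^ p₁ *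
      (3 * 8 ^ m) ^ p₁))))).toReal

theorem cfm_aux (m n : ℕ) {p₁ q : ℝ} (h1 : 1 ≤ p₁) (hq : 1 ≤ q) :
    ((52 * 8 ^ (m + n) : ℝ≥0∞) ^ (p₁ + q - 1) * (8 ^ (m + n)) ^ (p₁ + q - 1)) *
    (kap m n ^ (p₁ + q - 1) * ((((cov n).card : ℝ≥0∞) ^ q * (((cov n).card : ℝ≥0∞) ^ q *
      (3 * 8 ^ n) ^ q)) * (((cov m).card : ℝ≥0∞) ^ p₁ * (((cov m).card : ℝ≥0∞) ^ p₁ *
      (3 * 8 ^ m) ^ p₁)))) = ENNReal.ofReal (cfm m n p₁ q) := by
  rw [cfm, ENNReal.ofReal_toReal]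
  have h0 : ∀ (N : ℕ) (x : ℝ), 0 ≤ x → (N : ℝ≥0∞) ^ x ≠ ∞ := fun N x hx =>
    ENNReal.rpow_ne_top_of_nonneg hx (ENNReal.natCast_ne_top N)
  have h3 : ∀ (a k : ℕ) (x : ℝ), 0 ≤ x → ((a : ℝ≥0∞) * 8 ^ k) ^ x ≠ ∞ := fun a k x hx =>
    ENNReal.rpow_ne_top_of_nonneg hx (ENNReal.mul_ne_top (ENNReal.natCast_ne_top a)
      (ENNReal.pow_ne_top (by simp)))
  have h4 : ∀ (k : ℕ) (x : ℝ), 0 ≤ x → ((8 : ℝ≥0∞) ^ k) ^ x ≠ ∞ := fun k x hx =>
    ENNReal.rpow_ne_top_of_nonneg hx (ENNReal.pow_ne_top (by simp))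
  refine ENNReal.mul_ne_top (ENNReal.mul_ne_top ?_ (h4 _ _ (by linarith)))
    (ENNReal.mul_ne_top ?_ (ENNReal.mul_ne_top
    (ENNReal.mul_ne_top (h0 _ _ (by linarith)) (ENNReal.mul_ne_top (h0 _ _ (by linarith)) ?_))
    (ENNReal.mul_ne_top (h0 _ _ (by linarith)) (ENNReal.mul_ne_top (h0 _ _ (by linarith)) ?_))))
  · exact_mod_cast h3 52 (m + n) (p₁ + q - 1) (by linarith)
  · exact ENNReal.rpow_ne_top_of_nonneg (by linarith) kap_ne_top
  · exact_mod_cast h3 3 n q (by linarith)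
  · exact_mod_cast h3 3 m p₁ (by linarith)

/-- **The maximal function over all the tubes along the fibres.** -/
theorem full_fibre {T : Set ℝ} (hT : MeasurableSet T) {p₁ q : ℝ} (h1 : 1 ≤ p₁) (hq : 1 ≤ q)
    {δ : ℝ} (hδ : 0 < δ) (hδ1 : δ < 1)
    {b₁ : Vec m → Vec m} (hb₁ : Measurable b₁) {B : Set (Vec (m + n))}
    (hB : MeasurableSet B) (hBb : B ⊆ closedBall 0 1) {B₁ : Set (Vec m)} (hB₁ : MeasurableSet B₁)
    (hB₁b : B₁ ⊆ closedBall 0 1) (hsub : ∀ v ∈ B, hd v ∈ B₁) {K₁ K₂ : ℝ} (hK₁ : 0 ≤ K₁)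
    (hK₂ : 0 < K₂) (S₁ : Est T p₁ δ K₁ B₁ b₁)
    (S₂ : ∀ β : Vec n → Vec n, Measurable β → Est T q δ K₂ (closedBall 0 1) β)
    {f : Space (m + n) → ℝ} (hf : AEMeasurable f volume) (hfT : VanishesOff T f) :
    ∫⁻ v in B, fibreMax δ b₁ f v ^ (p₁ + q - 1) ≤
      ENNReal.ofReal (cfm m n p₁ q * (K₁ * K₂)) * ∫⁻ y, ‖f y‖ₑ ^ (p₁ + q - 1) := by
  have hδ4 : 0 < δ / 4 := by linarith
  have h2δ : 0 < 2 * δ := by linarith
  have hp10 : 0 < p₁ := by linarith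
  have hq0 : 0 < q := by linarith
  have e8 : 8 * (δ / 4) = 2 * δ := by ring
  have T₁ := sb_eight hδ4 h1 hb₁ (sb_of_est h1 hδ hδ1 hB₁ hB₁b hb₁ S₁)
  rw [e8] at T₁
  have T₁' := sb_eight h2δ h1 hb₁ T₁
  have T₂ : ∀ β : Vec n → Vec n, Measurable β → SB T (8 * (2 * δ)) β (closedBall 0 1) q
      (((cov n).card : ℝ≥0∞) ^ q * (((cov n).card : ℝ≥0∞) ^ q *
        ((3 * 8 ^ n) ^ q * ENNReal.ofReal K₂))) := by
    intro β hβ
    have h2 := sb_eight hδ4 hq hβ (sb_of_est hq hδ hδ1 measurableSet_closedBall subset_rfl hβ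
      (S₂ β hβ))
    rw [e8] at h2
    exact sb_eight h2δ hq hβ h2
  by_cases hcov : (cov n).card = 0
  · exfalso
    have h2 := cov_spec n (mem_closedBall_self (by norm_num : (0:ℝ) ≤ 8))
    rw [Finset.card_eq_zero] at hcov
    rw [hcov] at h2
    simp at h2
  have hc : ((cov n).card : ℝ≥0∞) ^ q ≠ 0 := by
    rw [Ne, ENNReal.rpow_eq_zero_iff_of_pos hq0]
    exact_mod_cast hcov
  have hct : ((cov n).card : ℝ≥0∞) ^ q ≠ ∞ :=
    ENNReal.rpow_ne_top_of_nonneg hq0.le (ENNReal.natCast_ne_top _)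
  have hK0 : ((cov n).card : ℝ≥0∞) ^ q * (((cov n).card : ℝ≥0∞) ^ q *
        ((3 * 8 ^ n) ^ q * ENNReal.ofReal K₂)) ≠ 0 := by
    refine mul_ne_zero hc (mul_ne_zero hc (mul_ne_zero ?_ ?_))
    · rw [Ne, ENNReal.rpow_eq_zero_iff_of_pos hq0]
      simp
    · simpa using hK₂
  have hKt : ((cov n).card : ℝ≥0∞) ^ q * (((cov n).card : ℝ≥0∞) ^ q *
        ((3 * 8 ^ n) ^ q * ENNReal.ofReal K₂)) ≠ ∞ := by
    refine ENNReal.mul_ne_top hct (ENNReal.mul_ne_top hct (ENNReal.mul_ne_top ?_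
      ENNReal.ofReal_ne_top))
    exact ENNReal.rpow_ne_top_of_nonneg hq0.le (ENNReal.mul_ne_top (by simp)
        (ENNReal.pow_ne_top (by simp)))
  have hfin := fibreMax_le hT h1 hq hδ hδ1 hb₁ hB hBb hB₁ hsub hK0 hKt T₁' T₂ hf hfT
  have hc0 : 0 ≤ cfm m n p₁ q := ENNReal.toReal_nonneg
  refine hfin.trans (le_of_eq ?_)
  congr 1
  rw [ENNReal.ofReal_mul hc0, ENNReal.ofReal_mul hK₁, ← cfm_aux m n h1 hq]
  ring

/-- Córdoba's estimate for all measurable families in the plane -/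
theorem est_plane : ∃ C : ℝ, 0 < C ∧ ∀ (T : Set ℝ) (δ : ℝ) (B : Set (Vec 1)) (b : Vec 1 → Vec 1),
    MeasurableSet T → 0 < δ → δ < 1 → MeasurableSet B → B ⊆ closedBall 0 1 → Measurable b →
    Est T 2 δ (C * (1 + Real.log (1 / δ))) B b := by
  obtain ⟨C, hC, h⟩ := built_est 1
  refine ⟨C, hC, ?_⟩
  intro T δ B b hT hδ hδ1 hB hB1 hb
  have h1 := h T δ 1 B b hT hδ hδ1 (Built.plane B b hB hB1 hb)
  have e : ((1 : ℕ) : ℝ) + 1 = 2 := by norm_num
  rw [e, mul_one, pow_one] at h1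
  exact h1

end Pool.Agent.D0H50.Kak
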