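import Pool.Agent.D0H50.Kak.Abs

set_option autoImplicit false

/-!
Coordinates on `ℝ^(m+n) = ℝ^m × ℝ^n` and the strip estimate for extensions.
-/

open MeasureTheory Set Filter Topology ENNReal NNReal Metric

namespace Pool.Agent.D0H50.Kak

open Pool.Agent.H803R2.KakFTO (Vec)

variable {m n : ℕ}

/-- The first `m` coordinates of `v ∈ ℝ^(m+n)`. -/
noncomputable def hd (v : Vec (m + n)) : Vec m := WithLp.toLp 2 (fun i => v (Fin.castAdd n i))

/-- The last `n` coordinates of `v ∈ ℝ^(m+n)`. -/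
noncomputable def tl (v : Vec (m + n)) : Vec n := WithLp.toLp 2 (fun i => v (Fin.natAdd m i))

/-- The point of `ℝ^(m+n)` with the coordinates of `a` followed by those of `b`. -/
noncomputable def glue (a : Vec m) (b : Vec n) : Vec (m + n) :=
  WithLp.toLp 2 (Fin.append a.ofLp b.ofLp)

@[simp] theorem glue_castAdd (a : Vec m) (b : Vec n) (i : Fin m) :
    glue a b (Fin.castAdd n i) = a i := by simp [glue]

@[simp] theorem glue_natAdd (a : Vec m) (b : Vec n) (i : Fin n) :
    glue a b (Fin.natAdd m i) = b i := by simp [glue]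

@[simp] theorem hd_glue (a : Vec m) (b : Vec n) : hd (glue a b) = a := by
  ext i; simp [hd]

@[simp] theorem tl_glue (a : Vec m) (b : Vec n) : tl (glue a b) = b := by
  ext i; simp [tl]

@[simp] theorem glue_hd_tl (v : Vec (m + n)) : glue (hd v) (tl v) = v := by
  ext i
  refine Fin.addCases (fun j => ?_) (fun j => ?_) i
  · simp [hd]
  · simp [tl]

theorem glue_add (a a' : Vec m) (b b' : Vec n) : glue (a + a') (b + b') = glue a b + glue a' b' := by
  ext i
  refine Fin.addCases (fun j => ?_) (fun j => ?_) i <;> simp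

theorem glue_smul (t : ℝ) (a : Vec m) (b : Vec n) : glue (t • a) (t • b) = t • glue a b := by
  ext i
  refine Fin.addCases (fun j => ?_) (fun j => ?_) i <;> simp

theorem norm_glue_sq (a : Vec m) (b : Vec n) : ‖glue a b‖ ^ 2 = ‖a‖ ^ 2 + ‖b‖ ^ 2 := by
  rw [EuclideanSpace.norm_sq_eq, EuclideanSpace.norm_sq_eq, EuclideanSpace.norm_sq_eq,
    Fin.sum_univ_add]
  simp

theorem norm_hd_le (v : Vec (m + n)) : ‖hd v‖ ≤ ‖v‖ := by
  have h := norm_glue_sq (hd v) (tl v)
  rw [glue_hd_tl] at h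
  exact le_of_sq_le_sq (by nlinarith [sq_nonneg ‖tl v‖]) (norm_nonneg _)

theorem norm_tl_le (v : Vec (m + n)) : ‖tl v‖ ≤ ‖v‖ := by
  have h := norm_glue_sq (hd v) (tl v)
  rw [glue_hd_tl] at h
  exact le_of_sq_le_sq (by nlinarith [sq_nonneg ‖hd v‖]) (norm_nonneg _)

theorem measurable_hd : Measurable (hd : Vec (m + n) → Vec m) := by
  unfold hd
  fun_prop

theorem measurable_tl : Measurable (tl : Vec (m + n) → Vec n) := by
  unfold tl
  fun_prop

theorem measurable_glue : Measurable (fun x : Vec m × Vec n => glue x.1 x.2) := by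
  unfold glue
  apply (WithLp.measurable_toLp 2 _).comp
  rw [measurable_pi_iff]
  intro i
  refine Fin.addCases (fun j => ?_) (fun j => ?_) i
  · simp only [Fin.append_left]; fun_prop
  · simp only [Fin.append_right]; fun_prop

/-- the coordinates as a measurable equivalence -/
noncomputable def gl (m n : ℕ) : (Vec m × Vec n) ≃ᵐ Vec (m + n) where
  toFun x := glue x.1 x.2
  invFun v := (hd v, tl v)
  left_inv x := by simp
  right_inv v := by simp
  measurable_toFun := measurable_glue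
  measurable_invFun := measurable_hd.prodMk measurable_tl

theorem gl_apply (x : Vec m × Vec n) : gl m n x = glue x.1 x.2 := rfl

theorem mp_gl : MeasurePreserving (gl m n) := by
  have h1 : MeasurePreserving (fun x : Vec m × Vec n => (x.1.ofLp, x.2.ofLp)) :=
    (PiLp.volume_preserving_ofLp (Fin m)).prod (PiLp.volume_preserving_ofLp (Fin n))
  have h2 : MeasurePreserving (MeasurableEquiv.sumPiEquivProdPi (fun _ : Fin m ⊕ Fin n => ℝ)).symm :=
    volume_measurePreserving_sumPiEquivProdPi_symm _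
  have h3 : MeasurePreserving (MeasurableEquiv.piCongrLeft (fun _ : Fin (m + n) => ℝ)
      (finSumFinEquiv (m := m) (n := n))) := volume_measurePreserving_piCongrLeft _ _
  have h4 := PiLp.volume_preserving_toLp (Fin (m + n))
  have h5 := h4.comp (h3.comp (h2.comp h1))
  convert h5 using 1
  ext x i
  rw [gl_apply]
  refine Fin.addCases (fun j => ?_) (fun j => ?_) i
  · rw [glue_castAdd]
    simp only [Function.comp]
    rw [← finSumFinEquiv_apply_left]
    erw [MeasurableEquiv.piCongrLeft_apply_apply]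
    rfl
  · rw [glue_natAdd]
    simp only [Function.comp]
    rw [← finSumFinEquiv_apply_right]
    erw [MeasurableEquiv.piCongrLeft_apply_apply]
    rfl

theorem lintegral_glue (F : Vec (m + n) → ℝ≥0∞) :
    ∫⁻ v, F v = ∫⁻ x : Vec m × Vec n, F (glue x.1 x.2) :=
  (mp_gl.lintegral_comp_emb (gl m n).measurableEmbedding F).symm

theorem setLIntegral_glue (F : Vec (m + n) → ℝ≥0∞) (B : Set (Vec (m + n))) :
    ∫⁻ v in B, F v = ∫⁻ x in {x : Vec m × Vec n | glue x.1 x.2 ∈ B}, F (glue x.1 x.2) :=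
  (mp_gl.setLIntegral_comp_preimage_emb (gl m n).measurableEmbedding F B).symm

/-- volume constant -/
noncomputable def kap (m n : ℕ) : ℝ≥0∞ :=
  (volume (closedBall (0 : Vec (m + n)) 1))⁻¹ *
    (volume (closedBall (0 : Vec m) 1) * volume (closedBall (0 : Vec n) 1))

theorem kap_ne_top : kap m n ≠ ∞ := by
  unfold kap
  refine ENNReal.mul_ne_top (ENNReal.inv_ne_top.2 ?_) (ENNReal.mul_ne_top ?_ ?_)
  · exact (Pool.Agent.H803R2.Kak.vol_pos one_pos).ne'
  · exact (Pool.Agent.H803R2.Kak.vol_lt_top).ne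
  · exact (Pool.Agent.H803R2.Kak.vol_lt_top).ne

theorem lintegral_bm {d : ℕ} (r : ℝ) (F : Vec d → ℝ≥0∞) :
    ∫⁻ w, F w ∂(bm d r) = (volume (closedBall (0 : Vec d) r))⁻¹ * ∫⁻ w in closedBall 0 r, F w := by
  rw [bm, lintegral_smul_measure, smul_eq_mul]

theorem bm_le {r : ℝ} (hr : 0 < r) {F : Vec (m + n) → ℝ≥0∞} (hF : Measurable F) :
    ∫⁻ w, F w ∂(bm (m + n) r) ≤ kap m n * ∫⁻ w₂, ∫⁻ w₁, F (glue w₁ w₂) ∂(bm m r) ∂(bm n r) := by
  have hr' : ENNReal.ofReal r ≠ 0 := by simpa using hr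
  have hrt : ENNReal.ofReal r ≠ ∞ := ENNReal.ofReal_ne_top
  have hV : ∀ d : ℕ, volume (closedBall (0 : Vec d) r) ≠ 0 :=
    fun d => (Pool.Agent.H803R2.Kak.vol_pos hr).ne'
  have hVt : ∀ d : ℕ, volume (closedBall (0 : Vec d) r) ≠ ∞ :=
    fun d => (Pool.Agent.H803R2.Kak.vol_lt_top).ne
  have hFg : Measurable (fun x : Vec m × Vec n => F (glue x.1 x.2)) := hF.comp measurable_glue
  rw [lintegral_bm, setLIntegral_glue]
  have h1 : ∫⁻ x in {x : Vec m × Vec n | glue x.1 x.2 ∈ closedBall 0 r}, F (glue x.1 x.2) ≤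
      ∫⁻ x in (closedBall (0 : Vec m) r) ×ˢ (closedBall (0 : Vec n) r), F (glue x.1 x.2) := by
    apply lintegral_mono_set
    rintro ⟨a, c⟩ hx
    have hx' : ‖glue a c‖ ≤ r := by simpa using hx
    constructor
    · have := norm_hd_le (glue a c)
      rw [hd_glue] at this
      simpa using this.trans hx'
    · have := norm_tl_le (glue a c)
      rw [tl_glue] at this
      simpa using this.trans hx'
  have h2 : ∫⁻ x in (closedBall (0 : Vec m) r) ×ˢ (closedBall (0 : Vec n) r), F (glue x.1 x.2) =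
      ∫⁻ w₂ in closedBall (0 : Vec n) r, ∫⁻ w₁ in closedBall (0 : Vec m) r, F (glue w₁ w₂) := by
    rw [Measure.volume_eq_prod, ← Measure.prod_restrict, lintegral_prod_symm _ hFg.aemeasurable]
  have h3 : ∫⁻ w₂ in closedBall (0 : Vec n) r, ∫⁻ w₁ in closedBall (0 : Vec m) r, F (glue w₁ w₂) =
      volume (closedBall (0 : Vec n) r) * (volume (closedBall (0 : Vec m) r) *
        ∫⁻ w₂, ∫⁻ w₁, F (glue w₁ w₂) ∂(bm m r) ∂(bm n r)) := by
    simp only [lintegral_bm]
    rw [lintegral_const_mul' _ _ (ENNReal.inv_ne_top.2 (hV m))]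
    set A := ∫⁻ w₂ in closedBall (0 : Vec n) r, ∫⁻ w₁ in closedBall (0 : Vec m) r, F (glue w₁ w₂)
    calc A = (volume (closedBall (0 : Vec n) r) * (volume (closedBall (0 : Vec n) r))⁻¹) *
          (volume (closedBall (0 : Vec m) r) * (volume (closedBall (0 : Vec m) r))⁻¹) * A := by
          rw [ENNReal.mul_inv_cancel (hV n) (hVt n), ENNReal.mul_inv_cancel (hV m) (hVt m)]
          simp
      _ = _ := by ring
  have h4 : (volume (closedBall (0 : Vec (m + n)) r))⁻¹ *
      (volume (closedBall (0 : Vec n) r) * volume (closedBall (0 : Vec m) r)) = kap m n := by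
    rw [Pool.Agent.H803R2.Kak.vol_ball_scale (d := m + n) hr,
      Pool.Agent.H803R2.Kak.vol_ball_scale (d := m) hr,
      Pool.Agent.H803R2.Kak.vol_ball_scale (d := n) hr, kap]
    have e1 : ENNReal.ofReal r ^ (m + n) ≠ 0 := pow_ne_zero _ hr'
    have e2 : ENNReal.ofReal r ^ (m + n) ≠ ∞ := ENNReal.pow_ne_top hrt
    rw [ENNReal.mul_inv (Or.inl e1) (Or.inl e2)]
    calc _ = ((ENNReal.ofReal r ^ (m + n))⁻¹ * ENNReal.ofReal r ^ (m + n)) *
          ((volume (closedBall (0 : Vec (m + n)) 1))⁻¹ *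
          (volume (closedBall (0 : Vec m) 1) * volume (closedBall (0 : Vec n) 1))) := by
          rw [pow_add]; ring
      _ = _ := by rw [ENNReal.inv_mul_cancel e1 e2, one_mul]
  calc _ ≤ (volume (closedBall (0 : Vec (m + n)) r))⁻¹ *
        ∫⁻ x in (closedBall (0 : Vec m) r) ×ˢ (closedBall (0 : Vec n) r), F (glue x.1 x.2) := by
        gcongr
    _ = ((volume (closedBall (0 : Vec (m + n)) r))⁻¹ *
      (volume (closedBall (0 : Vec n) r) * volume (closedBall (0 : Vec m) r))) *
        ∫⁻ w₂, ∫⁻ w₁, F (glue w₁ w₂) ∂(bm m r) ∂(bm n r) := by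
        rw [h2, h3]; ring
    _ = _ := by rw [h4]

/-- The extension of the family `b₁` by the families `b₂ a`. -/
noncomputable def ext (b₁ : Vec m → Vec m) (b₂ : Vec m → Vec n → Vec n) (v : Vec (m + n)) :
    Vec (m + n) := glue (b₁ (hd v)) (b₂ (hd v) (tl v))

theorem measurable_ext {b₁ : Vec m → Vec m} {b₂ : Vec m → Vec n → Vec n} (h₁ : Measurable b₁)
    (h₂ : Measurable (fun x : Vec m × Vec n => b₂ x.1 x.2)) : Measurable (ext b₁ b₂) := by
  unfold ext
  exact measurable_glue.comp ((h₁.comp measurable_hd).prodMk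
    (h₂.comp (measurable_hd.prodMk measurable_tl)))

theorem measurable_strip {d : ℕ} {r : ℝ} (hr : 0 < r) {g : Vec d × ℝ → ℝ≥0∞} (hg : Measurable g)
    {b : Vec d → Vec d} (hb : Measurable b) (k : ℤ) : Measurable (strip r g b k) := by
  have := bm_prob (d := d) hr
  have h1 : Measurable (fun v => ∫⁻ z : ℝ × Vec d, g (b v + z.1 • v + z.2, z.1)
      ∂((volume.restrict (I4 k)).prod (bm d r))) := by
    have h2 : Measurable (fun u : Vec d × (ℝ × Vec d) => g (b u.1 + u.2.1 • u.1 + u.2.2, u.2.1)) := by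
      apply hg.comp
      fun_prop
    exact h2.lintegral_prod_right'
  have h3 : strip r g b k = fun v => ∫⁻ z : ℝ × Vec d, g (b v + z.1 • v + z.2, z.1)
      ∂((volume.restrict (I4 k)).prod (bm d r)) := by
    ext v
    exact strip_eq hr hg b k v
  rw [h3]
  exact h1

/-- strips of an extension -/
theorem strip_ext_le {r : ℝ} (hr : 0 < r) {g : Vec (m + n) × ℝ → ℝ≥0∞} (hg : Measurable g)
    (b₁ : Vec m → Vec m) (b₂ : Vec m → Vec n → Vec n) (k : ℤ) (a : Vec m) (c : Vec n) :
    strip r g (ext b₁ b₂) k (glue a c) ≤ kap m n *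
      strip r (fun x : Vec n × ℝ => ∫⁻ w₁, g (glue (b₁ a + x.2 • a + w₁) x.1, x.2) ∂(bm m r))
        (b₂ a) k c := by
  unfold strip
  rw [← lintegral_const_mul' _ _ kap_ne_top]
  apply lintegral_mono
  intro t
  simp only
  have h1 : ∀ w₁ w₂, ext b₁ b₂ (glue a c) + t • glue a c + glue w₁ w₂ =
      glue (b₁ a + t • a + w₁) (b₂ a c + t • c + w₂) := by
    intro w₁ w₂
    unfold ext
    rw [hd_glue, tl_glue, ← glue_smul, ← glue_add, ← glue_add]
  have hm : Measurable (fun w : Vec (m + n) => g (ext b₁ b₂ (glue a c) + t • glue a c + w, t)) := by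
    apply hg.comp
    fun_prop
  refine (bm_le hr hm).trans (le_of_eq ?_)
  simp only [h1]

/-- **The strip estimate for extensions** -/
theorem sb_ext {T : Set ℝ} {p₁ q : ℝ} (h1 : 1 ≤ p₁) (hq : 1 ≤ q) {r : ℝ} (hr : 0 < r)
    {b₁ : Vec m → Vec m}
    {b₂ : Vec m → Vec n → Vec n} (hb₁ : Measurable b₁)
    (hb₂ : Measurable (fun x : Vec m × Vec n => b₂ x.1 x.2)) {B : Set (Vec (m + n))}
    (hB : MeasurableSet B) {B₁ : Set (Vec m)} (hB₁ : MeasurableSet B₁) (hsub : ∀ v ∈ B, hd v ∈ B₁)
    {K₁ K₂ : ℝ≥0∞} (hK : K₂ ≠ 0) (hKt : K₂ ≠ ∞) (S₁ : SB T r b₁ B₁ p₁ K₁)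
    (S₂ : ∀ a ∈ B₁, SB T r (b₂ a) {c | glue a c ∈ B} q K₂) :
    SB T r (ext b₁ b₂) B (p₁ + q - 1) (kap m n ^ (p₁ + q - 1) * (K₂ * K₁)) := by
  intro g hg hgT k
  have hpm := bm_prob (d := m) hr
  have hp10 : 0 < p₁ := by linarith
  set p := p₁ + q - 1 with hp
  have hp0 : 0 < p := by linarith
  have hbm : Measurable (ext b₁ b₂) := measurable_ext hb₁ hb₂
  have hSm : Measurable (fun x : Vec m × Vec n => strip r g (ext b₁ b₂) k (glue x.1 x.2) ^ p) :=
    ((measurable_strip hr hg hbm k).comp measurable_glue).pow_const p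
  have hBm : MeasurableSet {x : Vec m × Vec n | glue x.1 x.2 ∈ B} := measurable_glue hB
  set H : Vec m × ℝ → ℝ≥0∞ := fun x => (∫⁻ y₂, g (glue x.1 y₂, x.2) ^ p) ^ (1 / p₁) with hH
  have hHm : Measurable H := by
    apply Measurable.pow_const
    have : Measurable (fun z : (Vec m × ℝ) × Vec n => g (glue z.1.1 z.2, z.1.2) ^ p) := by
      apply Measurable.pow_const
      apply hg.comp
      exact (measurable_glue.comp (by fun_prop :
        Measurable (fun z : (Vec m × ℝ) × Vec n => (z.1.1, z.2)))).prodMk (by fun_prop)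
    exact this.lintegral_prod_right'
  have hfib : ∀ a ∈ B₁, ∫⁻ c in {c | glue a c ∈ B}, strip r g (ext b₁ b₂) k (glue a c) ^ p ≤
      kap m n ^ p * (K₂ * strip r H b₁ k a ^ p₁) := by
    intro a ha
    have hG : Measurable (fun z : Vec m × (Vec n × ℝ) =>
        g (glue (b₁ a + z.2.2 • a + z.1) z.2.1, z.2.2)) := by
      apply hg.comp
      exact (measurable_glue.comp (by fun_prop :
        Measurable (fun z : Vec m × (Vec n × ℝ) => (b₁ a + z.2.2 • a + z.1, z.2.1)))).prodMk
        (by fun_prop)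
    have h2 := fibre (bm m r) h1 hq hr hK hKt (S₂ a ha) hG (fun w y t ht => hgT _ t ht) k
    rw [← hp] at h2
    calc ∫⁻ c in {c | glue a c ∈ B}, strip r g (ext b₁ b₂) k (glue a c) ^ p
        ≤ ∫⁻ c in {c | glue a c ∈ B}, kap m n ^ p *
          strip r (fun x : Vec n × ℝ => ∫⁻ w₁, g (glue (b₁ a + x.2 • a + w₁) x.1, x.2) ∂(bm m r))
            (b₂ a) k c ^ p := by
          apply lintegral_mono
          intro c
          simp only
          rw [← ENNReal.mul_rpow_of_nonneg _ _ hp0.le]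
          exact ENNReal.rpow_le_rpow (strip_ext_le hr hg b₁ b₂ k a c) hp0.le
      _ = kap m n ^ p * ∫⁻ c in {c | glue a c ∈ B},
          strip r (fun x : Vec n × ℝ => ∫⁻ w₁, g (glue (b₁ a + x.2 • a + w₁) x.1, x.2) ∂(bm m r))
            (b₂ a) k c ^ p :=
          lintegral_const_mul' _ _ (ENNReal.rpow_ne_top_of_nonneg hp0.le kap_ne_top)
      _ ≤ _ := by
          gcongr
          exact h2
  have hgm : Measurable (fun z : (Vec m × ℝ) => ∫⁻ y₂, g (glue z.1 y₂, z.2) ^ p) := by
    have : Measurable (fun z : (Vec m × ℝ) × Vec n => g (glue z.1.1 z.2, z.1.2) ^ p) := by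
      apply Measurable.pow_const
      apply hg.comp
      exact (measurable_glue.comp (by fun_prop :
        Measurable (fun z : (Vec m × ℝ) × Vec n => (z.1.1, z.2)))).prodMk (by fun_prop)
    exact this.lintegral_prod_right'
  calc ∫⁻ v in B, strip r g (ext b₁ b₂) k v ^ p
      = ∫⁻ x in {x : Vec m × Vec n | glue x.1 x.2 ∈ B},
          strip r g (ext b₁ b₂) k (glue x.1 x.2) ^ p := setLIntegral_glue _ _
    _ = ∫⁻ a, ∫⁻ c in {c | glue a c ∈ B}, strip r g (ext b₁ b₂) k (glue a c) ^ p := by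
        rw [← lintegral_indicator hBm, Measure.volume_eq_prod,
          lintegral_prod _ (hSm.indicator hBm).aemeasurable]
        apply lintegral_congr
        intro a
        rw [← lintegral_indicator]
        · rfl
        · exact hBm.preimage (by fun_prop : Measurable (fun c : Vec n => (a, c)))
    _ = ∫⁻ a in B₁, ∫⁻ c in {c | glue a c ∈ B}, strip r g (ext b₁ b₂) k (glue a c) ^ p := by
        symm
        apply setLIntegral_eq_of_support_subset
        intro a ha
        by_contra hna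
        apply ha
        have : {c : Vec n | glue a c ∈ B} = ∅ := by
          rw [eq_empty_iff_forall_notMem]
          intro c hc
          apply hna
          have := hsub _ hc
          rwa [hd_glue] at this
        simp [this]
    _ ≤ ∫⁻ a in B₁, kap m n ^ p * (K₂ * strip r H b₁ k a ^ p₁) := setLIntegral_mono' hB₁ hfib
    _ = kap m n ^ p * (K₂ * ∫⁻ a in B₁, strip r H b₁ k a ^ p₁) := by
        rw [lintegral_const_mul' _ _ (ENNReal.rpow_ne_top_of_nonneg hp0.le kap_ne_top),
          lintegral_const_mul' _ _ hKt]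
    _ ≤ kap m n ^ p * (K₂ * (K₁ * ∫⁻ t in I4 k, ∫⁻ y, H (y, t) ^ p₁)) := by
        gcongr
        refine S₁ H hHm ?_ k
        intro y t ht
        simp only [hH, hgT _ t ht, ENNReal.zero_rpow_of_pos hp0, lintegral_zero,
          ENNReal.zero_rpow_of_pos (by positivity : 0 < 1 / p₁)]
    _ = kap m n ^ p * (K₂ * (K₁ * ∫⁻ t in I4 k, ∫⁻ y, g (y, t) ^ p)) := by
        congr 4
        ext t
        rw [lintegral_glue, Measure.volume_eq_prod, lintegral_prod]
        · apply lintegral_congr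
          intro y
          simp only [hH]
          rw [← ENNReal.rpow_mul, one_div, inv_mul_cancel₀ hp10.ne', ENNReal.rpow_one]
        · apply Measurable.aemeasurable
          apply Measurable.pow_const
          apply hg.comp
          exact measurable_glue.prodMk (by fun_prop)
    _ = _ := by ring

end Pool.Agent.D0H50.Kak
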