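import Pool.Agent.D0H50.Kak.Comp
import Pool.Agent.H742R2.Kk.Planar

set_option autoImplicit false

/-!
The strip estimate for all measurable families of lines in the plane.
-/

open MeasureTheory Set Filter Topology ENNReal NNReal Metric

namespace Pool.Agent.D0H50.Kak

open Pool.Agent.H803R2.KakFTO Pool.Agent.H803R2.Kak

theorem mp_coord : MeasurePreserving (fun v : Vec 1 => v 0) (volume : Measure (Vec 1)) volume :=
  (volume_preserving_funUnique (Fin 1) ℝ).comp (PiLp.volume_preserving_ofLp (Fin 1))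

theorem norm_vec_one (x : Vec 1) : ‖x‖ = |x 0| := by
  rw [EuclideanSpace.norm_eq]
  simp [Real.sqrt_sq_eq_abs]

/-- the piece of the strip around the line number `v` -/
def Pc (r : ℝ) (b : Vec 1 → Vec 1) (k : ℤ) (v : Vec 1) : Set (Vec 1 × ℝ) :=
  {q | q.2 ∈ I4 k ∧ ‖q.1 - (b v + q.2 • v)‖ ≤ r}

/-- kernel -/
noncomputable def Ker1 (r : ℝ) (b : Vec 1 → Vec 1) (k : ℤ) (v : Vec 1) (q : Vec 1 × ℝ) : ℝ≥0∞ :=
  (volume (closedBall (0 : Vec 1) r))⁻¹ *
    ((closedBall (0 : Vec 1) 1).indicator (fun v => (Pc r b k v).indicator 1 q) v)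

theorem ker1_eq {r : ℝ} {b : Vec 1 → Vec 1} {k : ℤ} {v : Vec 1} (hv : v ∈ closedBall (0 : Vec 1) 1)
    (q : Vec 1 × ℝ) : Ker1 r b k v q = (volume (closedBall (0 : Vec 1) r))⁻¹ *
      (Pc r b k v).indicator 1 q := by
  rw [Ker1, indicator_of_mem hv]

theorem measurable_ker1 {b : Vec 1 → Vec 1} (hb : Measurable b) (r : ℝ) (k : ℤ) :
    Measurable (Function.uncurry (Ker1 r b k)) := by
  have h1 : MeasurableSet {z : Vec 1 × (Vec 1 × ℝ) | z.2.2 ∈ I4 k ∧
      ‖z.2.1 - (b z.1 + z.2.2 • z.1)‖ ≤ r} := by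
    have h2 : MeasurableSet {z : Vec 1 × (Vec 1 × ℝ) | ‖z.2.1 - (b z.1 + z.2.2 • z.1)‖ ≤ r} :=
      measurableSet_le (by fun_prop) measurable_const
    exact ((measurableSet_I4 k).preimage (by fun_prop :
      Measurable (fun z : Vec 1 × (Vec 1 × ℝ) => z.2.2))).inter h2
  have h3 : MeasurableSet {z : Vec 1 × (Vec 1 × ℝ) | z.1 ∈ closedBall (0 : Vec 1) 1} :=
    measurableSet_closedBall.preimage measurable_fst
  have h4 : Function.uncurry (Ker1 r b k) = fun z => (volume (closedBall (0 : Vec 1) r))⁻¹ *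
      ({z : Vec 1 × (Vec 1 × ℝ) | z.1 ∈ closedBall (0 : Vec 1) 1} ∩
        {z : Vec 1 × (Vec 1 × ℝ) | z.2.2 ∈ I4 k ∧
          ‖z.2.1 - (b z.1 + z.2.2 • z.1)‖ ≤ r}).indicator 1 z := by
    ext z
    obtain ⟨v, q⟩ := z
    simp only [Function.uncurry]
    rw [Ker1]
    congr 1
    by_cases hv : v ∈ closedBall (0 : Vec 1) 1
    · rw [indicator_of_mem hv]
      by_cases hq : q ∈ Pc r b k v
      · rw [indicator_of_mem hq, indicator_of_mem]
        · rfl
        · exact ⟨hv, hq⟩
      · rw [indicator_of_notMem hq, indicator_of_notMem]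
        rintro ⟨-, h⟩
        exact hq h
    · rw [indicator_of_notMem hv, indicator_of_notMem]
      rintro ⟨h, -⟩
      exact hv h
  rw [h4]
  exact (measurable_one.indicator (h3.inter h1)).const_mul _

theorem strip_ker {r : ℝ} (hr : 0 < r) (b : Vec 1 → Vec 1) (k : ℤ) {v : Vec 1}
    (hv : v ∈ closedBall (0 : Vec 1) 1) {g : Vec 1 × ℝ → ℝ≥0∞} (hg : Measurable g) :
    ∫⁻ q, Ker1 r b k v q * g q = strip r g b k v := by
  have hV0 : volume (closedBall (0 : Vec 1) r) ≠ 0 := (vol_pos hr).ne'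
  have hP : MeasurableSet (Pc r b k v) := by
    have h1 : MeasurableSet {p : (Vec 1) × ℝ | ‖p.1 - (b v + p.2 • v)‖ ≤ r} :=
      measurableSet_le (by fun_prop) measurable_const
    exact ((measurableSet_I4 k).preimage measurable_snd).inter h1
  have e := lintegral_box hg (fun t => b v + t • v) (measurable_line b v) (I4 k)
      (measurableSet_I4 k) r
  have h2 : ∫⁻ q, Ker1 r b k v q * g q = (volume (closedBall (0 : Vec 1) r))⁻¹ *
      ∫⁻ q in Pc r b k v, g q := by
    rw [← lintegral_indicator hP, ← lintegral_const_mul' _ _ (ENNReal.inv_ne_top.2 hV0)]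
    apply lintegral_congr
    intro q
    rw [ker1_eq hv, mul_assoc]
    congr 1
    by_cases hq : q ∈ Pc r b k v
    · rw [indicator_of_mem hq, indicator_of_mem hq]; simp
    · rw [indicator_of_notMem hq, indicator_of_notMem hq, zero_mul]
  rw [h2]
  have h3 : ∫⁻ q in Pc r b k v, g q = ∫⁻ t in I4 k, ∫⁻ w in closedBall (0:(Vec 1)) r,
      g (b v + t • v + w, t) := e
  rw [h3]
  unfold strip
  simp only [lintegral_bm]
  rw [lintegral_const_mul' _ _ (ENNReal.inv_ne_top.2 hV0)]

/-- the heights at which two lines are at distance at most `2 r` -/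
def Am (r : ℝ) (b : Vec 1 → Vec 1) (v v' : Vec 1) : Set ℝ :=
  {t | |t * (v 0 - v' 0) + (b v 0 - b v' 0)| ≤ 2 * r}

theorem measurableSet_Am (r : ℝ) (b : Vec 1 → Vec 1) (v v' : Vec 1) :
    MeasurableSet (Am r b v v') := measurableSet_le (by fun_prop) measurable_const

theorem mem_Am {r : ℝ} {b : Vec 1 → Vec 1} {k : ℤ} {v v' w : Vec 1} (hw : ‖w‖ ≤ r) {t : ℝ}
    (hq : (b v + t • v + w, t) ∈ Pc r b k v') : t ∈ Am r b v v' := by
  have h3 : ‖(b v + t • v + w) - (b v' + t • v')‖ ≤ r := hq.2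
  have h5 : ‖(b v - b v') + t • (v - v')‖ ≤ 2 * r := by
    have e1 : (b v - b v') + t • (v - v') =
        ((b v + t • v + w) - (b v' + t • v')) - w := by
      rw [smul_sub]; abel
    rw [e1]
    refine (norm_sub_le _ _).trans ?_
    linarith
  rw [norm_vec_one] at h5
  have e2 : ((b v - b v') + t • (v - v')) 0 = t * (v 0 - v' 0) + (b v 0 - b v' 0) := by
    simp; ring
  rw [e2] at h5
  exact h5

theorem avg_ker_le {r : ℝ} (hr : 0 < r) (b : Vec 1 → Vec 1) (k : ℤ) {v v' : Vec 1}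
    (hv' : v' ∈ closedBall (0 : Vec 1) 1) (t : ℝ) :
    ∫⁻ w, Ker1 r b k v' (b v + t • v + w, t) ∂(bm 1 r) ≤
      (volume (closedBall (0 : Vec 1) r))⁻¹ * (Am r b v v').indicator 1 t := by
  have hV0 : volume (closedBall (0 : Vec 1) r) ≠ 0 := (vol_pos hr).ne'
  have hVt : volume (closedBall (0 : Vec 1) r) ≠ ∞ := vol_lt_top.ne
  rw [lintegral_bm]
  have h2 : ∫⁻ w in closedBall (0 : Vec 1) r, Ker1 r b k v' (b v + t • v + w, t) ≤
      ∫⁻ w in closedBall (0 : Vec 1) r, (volume (closedBall (0 : Vec 1) r))⁻¹ *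
        (Am r b v v').indicator 1 t := by
    apply setLIntegral_mono' measurableSet_closedBall
    intro w hw
    rw [ker1_eq hv']
    refine mul_le_mul' le_rfl ?_
    by_cases hq : (b v + t • v + w, t) ∈ Pc r b k v'
    · rw [indicator_of_mem (mem_Am (by simpa using hw) hq), indicator_of_mem hq]
      exact le_rfl
    · rw [indicator_of_notMem hq]
      exact zero_le
  rw [lintegral_const, Measure.restrict_apply_univ] at h2
  refine (mul_le_mul' le_rfl h2).trans (le_of_eq ?_)
  calc (volume (closedBall (0 : Vec 1) r))⁻¹ * ((volume (closedBall (0 : Vec 1) r))⁻¹ *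
        (Am r b v v').indicator 1 t * volume (closedBall (0 : Vec 1) r))
      = ((volume (closedBall (0 : Vec 1) r))⁻¹ * volume (closedBall (0 : Vec 1) r)) *
        ((volume (closedBall (0 : Vec 1) r))⁻¹ * (Am r b v v').indicator 1 t) := by ring
    _ = _ := by rw [ENNReal.inv_mul_cancel hV0 hVt, one_mul]

theorem vol_Am_le {r : ℝ} (hr : 0 < r) (b : Vec 1 → Vec 1) (k : ℤ) (v v' : Vec 1) :
    volume (Am r b v v' ∩ I4 k) ≤
      ENNReal.ofReal (r * (2 * (4 / (4 * r + |v' 0 - v 0|)))) := by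
  have hβ0 : 0 ≤ |v' 0 - v 0| := abs_nonneg _
  have hsym : |v 0 - v' 0| = |v' 0 - v 0| := abs_sub_comm _ _
  rcases le_or_gt |v' 0 - v 0| (4 * r) with h | h
  · have h8 : volume (Am r b v v' ∩ I4 k) ≤ 1 := (measure_mono inter_subset_right).trans (volume_I4 k)
    refine h8.trans ?_
    rw [show (1 : ℝ≥0∞) = ENNReal.ofReal 1 by simp]
    apply ENNReal.ofReal_le_ofReal
    rw [mul_div_assoc', mul_div_assoc', le_div_iff₀ (by positivity)]
    linarith
  · have hne : v 0 - v' 0 ≠ 0 := by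
      intro h0
      rw [← hsym, h0, abs_zero] at h
      linarith
    have h8 : volume (Am r b v v' ∩ I4 k) ≤ ENNReal.ofReal (2 * (2 * r / |v 0 - v' 0|)) :=
      (measure_mono inter_subset_left).trans
        (Pool.Agent.H742R2.Kk.PlAux.vol_affine (v 0 - v' 0) (b v 0 - b v' 0) (2 * r) hne)
    refine h8.trans ?_
    apply ENNReal.ofReal_le_ofReal
    rw [hsym]
    have hpos : 0 < |v' 0 - v 0| := by linarith
    rw [mul_div_assoc', mul_div_assoc', mul_div_assoc', div_le_div_iff₀ hpos (by positivity)]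
    nlinarith

theorem meet_le {r : ℝ} (hr : 0 < r) (b : Vec 1 → Vec 1) (hb : Measurable b) (k : ℤ) {v v' : Vec 1}
    (hv : v ∈ closedBall (0 : Vec 1) 1) (hv' : v' ∈ closedBall (0 : Vec 1) 1) :
    ∫⁻ q, Ker1 r b k v q * Ker1 r b k v' q ≤ (volume (closedBall (0 : Vec 1) 1))⁻¹ *
      (2 * ENNReal.ofReal (4 / (4 * r + |v' 0 - v 0|))) := by
  have hV0 : volume (closedBall (0 : Vec 1) r) ≠ 0 := (vol_pos hr).ne'
  have hVW : volume (closedBall (0 : Vec 1) r) = ENNReal.ofReal r *
      volume (closedBall (0 : Vec 1) 1) := by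
    rw [vol_ball_scale (d := 1) hr, pow_one]
  have hm : Measurable (Ker1 r b k v') := (measurable_ker1 hb r k).of_uncurry_left
  have h6 : ∫⁻ q, Ker1 r b k v q * Ker1 r b k v' q ≤ (volume (closedBall (0 : Vec 1) r))⁻¹ *
      volume (Am r b v v' ∩ I4 k) := by
    rw [strip_ker hr b k hv hm, strip]
    refine (lintegral_mono fun t => avg_ker_le hr b k hv' t).trans ?_
    rw [lintegral_const_mul' _ _ (ENNReal.inv_ne_top.2 hV0),
      lintegral_indicator_one (measurableSet_Am r b v v'),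
      Measure.restrict_apply (measurableSet_Am r b v v')]
  have hr0 : ENNReal.ofReal r ≠ 0 := by simpa using hr
  refine (h6.trans (mul_le_mul' le_rfl (vol_Am_le hr b k v v'))).trans (le_of_eq ?_)
  rw [hVW, ENNReal.mul_inv (Or.inl hr0) (Or.inl ENNReal.ofReal_ne_top),
    ENNReal.ofReal_mul hr.le, ENNReal.ofReal_mul (by norm_num : (0:ℝ) ≤ 2),
    ENNReal.ofReal_ofNat]
  have hcan := ENNReal.inv_mul_cancel hr0 ENNReal.ofReal_ne_top
  generalize (volume (closedBall (0 : Vec 1) 1))⁻¹ = W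
  generalize ENNReal.ofReal (4 / (4 * r + |v' 0 - v 0|)) = X
  generalize (ENNReal.ofReal r)⁻¹ = Y at *
  generalize ENNReal.ofReal r = Z at *
  calc Y * W * (Z * (2 * X)) = (Y * Z) * (W * (2 * X)) := by ring
    _ = _ := by rw [hcan, one_mul]

/-- the constant for the plane -/
noncomputable def cpl : ℝ≥0∞ := (volume (closedBall (0 : Vec 1) 1))⁻¹ * 16

theorem cpl_ne_top : cpl ≠ ∞ :=
  ENNReal.mul_ne_top (ENNReal.inv_ne_top.2 (vol_pos one_pos).ne') (by simp)

/-- **all measurable families of lines in the plane** -/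
theorem sb_plane {T : Set ℝ} {δ : ℝ} (hδ : 0 < δ) (hδ1 : δ < 1) {B : Set (Vec 1)}
    (hB : MeasurableSet B) (hB1 : B ⊆ closedBall 0 1) {b : Vec 1 → Vec 1} (hb : Measurable b) :
    SB T (2 * δ) b B 2 (cpl * ENNReal.ofReal (1 + Real.log (1 / δ))) := by
  intro g hg _ k
  have hr : 0 < 2 * δ := by linarith
  set r := 2 * δ with hrdef
  have hW0 : volume (closedBall (0 : Vec 1) 1) ≠ 0 := (vol_pos one_pos).ne'
  have hlog : 2 * ENNReal.ofReal (8 * Real.log ((4 * r + 2) / (4 * r))) ≤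
      16 * ENNReal.ofReal (1 + Real.log (1 / δ)) := by
    have h1 : (4 * r + 2) / (4 * r) ≤ 2 * (1 / δ) := by
      rw [div_le_iff₀ (by positivity), hrdef]
      field_simp
      linarith
    have h2 : Real.log ((4 * r + 2) / (4 * r)) ≤ 1 + Real.log (1 / δ) := by
      refine (Real.log_le_log (by positivity) h1).trans ?_
      rw [Real.log_mul (by norm_num) (by positivity)]
      have := Real.log_two_lt_d9
      linarith
    rw [ENNReal.ofReal_mul (by norm_num : (0:ℝ) ≤ 8), ENNReal.ofReal_ofNat, ← mul_assoc]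
    norm_num
    gcongr
    rw [one_div] at h2
    convert h2 using 2
    simp
  have hBK : ∀ v, ∫⁻ v', (∫⁻ q, Ker1 r b k v q * Ker1 r b k v' q) ∂(volume.restrict B) ≤
      cpl * ENNReal.ofReal (1 + Real.log (1 / δ)) := by
    intro v
    by_cases hv : v ∈ closedBall (0 : Vec 1) 1
    swap
    · have : ∀ q, Ker1 r b k v q = 0 := by
        intro q
        rw [Ker1, indicator_of_notMem hv, mul_zero]
      simp [this]
    have hv1 : |v 0| ≤ 1 := by
      rw [← norm_vec_one]; simpa using hv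
    have hF : Measurable (fun u : ℝ => (Icc (-2:ℝ) 2).indicator
        (fun u => ENNReal.ofReal (4 / (4 * r + |u|))) u) := by
      apply Measurable.indicator _ measurableSet_Icc
      fun_prop
    calc ∫⁻ v', (∫⁻ q, Ker1 r b k v q * Ker1 r b k v' q) ∂(volume.restrict B)
        ≤ ∫⁻ v' in B, (volume (closedBall (0 : Vec 1) 1))⁻¹ * (2 * (Icc (-2:ℝ) 2).indicator
            (fun u => ENNReal.ofReal (4 / (4 * r + |u|))) (v' 0 - v 0)) := by
          apply setLIntegral_mono' hB
          intro v' hv'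
          have hv'b := hB1 hv'
          have hv'1 : |v' 0| ≤ 1 := by
            rw [← norm_vec_one]; simpa using hv'b
          have hmem : v' 0 - v 0 ∈ Icc (-2 : ℝ) 2 := by
            rw [abs_le] at hv1 hv'1
            constructor <;> linarith
          rw [indicator_of_mem hmem]
          exact meet_le hr b hb k hv hv'b
      _ ≤ ∫⁻ v' : Vec 1, (volume (closedBall (0 : Vec 1) 1))⁻¹ * (2 * (Icc (-2:ℝ) 2).indicator
            (fun u => ENNReal.ofReal (4 / (4 * r + |u|))) (v' 0 - v 0)) :=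
          setLIntegral_le_lintegral _ _
      _ = (volume (closedBall (0 : Vec 1) 1))⁻¹ * (2 * ∫⁻ v' : Vec 1, (Icc (-2:ℝ) 2).indicator
            (fun u => ENNReal.ofReal (4 / (4 * r + |u|))) (v' 0 - v 0)) := by
          rw [lintegral_const_mul' _ _ (ENNReal.inv_ne_top.2 hW0), lintegral_const_mul' _ _ (by simp)]
      _ = (volume (closedBall (0 : Vec 1) 1))⁻¹ * (2 * ∫⁻ u in Icc (-2:ℝ) 2,
            ENNReal.ofReal (4 / (4 * r + |u|))) := by
          congr 2
          have e1 := mp_coord.lintegral_comp (f := fun u : ℝ => (Icc (-2:ℝ) 2).indicator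
            (fun u => ENNReal.ofReal (4 / (4 * r + |u|))) (u - v 0)) (hF.comp (by fun_prop))
          rw [e1, lintegral_sub_right_eq_self (fun u : ℝ => (Icc (-2:ℝ) 2).indicator
            (fun u => ENNReal.ofReal (4 / (4 * r + |u|))) u) (v 0),
            lintegral_indicator measurableSet_Icc]
      _ ≤ (volume (closedBall (0 : Vec 1) 1))⁻¹ *
            (16 * ENNReal.ofReal (1 + Real.log (1 / δ))) := by
          refine mul_le_mul' le_rfl (le_trans (mul_le_mul' le_rfl ?_) hlog)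
          exact Pool.Agent.H742R2.Kk.PlAux.log_int (4 * r) 2 (by linarith) (by norm_num)
      _ = _ := by rw [cpl]; ring
  have key := Pool.Agent.H742R2.Kk.tt_star (volume.restrict B) (volume : Measure (Vec 1 × ℝ))
    (Ker1 r b k) (measurable_ker1 hb r k) _ hBK
    (fun q => {q : Vec 1 × ℝ | q.2 ∈ I4 k}.indicator g q)
    (hg.indicator ((measurableSet_I4 k).preimage measurable_snd))
  have e2 : ∀ x : ℝ≥0∞, x ^ (2:ℝ) = x ^ 2 := fun x => by exact_mod_cast ENNReal.rpow_natCast x 2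
  have hS : ∀ v ∈ B, strip r g b k v ^ (2:ℝ) = (∫⁻ q, Ker1 r b k v q *
      {q : Vec 1 × ℝ | q.2 ∈ I4 k}.indicator g q) ^ 2 := by
    intro v hv
    rw [e2, ← strip_ker hr b k (hB1 hv) hg]
    congr 1
    apply lintegral_congr
    intro q
    by_cases hq : q ∈ {q : Vec 1 × ℝ | q.2 ∈ I4 k}
    · rw [indicator_of_mem hq]
    · have : q ∉ Pc r b k v := fun h => hq h.1
      rw [ker1_eq (hB1 hv), indicator_of_notMem this]
      simp
  rw [setLIntegral_congr_fun hB hS]
  refine key.trans (le_of_eq ?_)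
  congr 1
  have hgi : Measurable (fun q => ({q : Vec 1 × ℝ | q.2 ∈ I4 k}.indicator g q) ^ 2) :=
    (hg.indicator ((measurableSet_I4 k).preimage measurable_snd)).pow_const 2
  rw [Measure.volume_eq_prod, lintegral_prod_symm _ hgi.aemeasurable,
    ← lintegral_indicator (measurableSet_I4 k)]
  apply lintegral_congr
  intro t
  by_cases ht : t ∈ I4 k
  · rw [indicator_of_mem ht]
    apply lintegral_congr
    intro y
    have : (y, t) ∈ {q : Vec 1 × ℝ | q.2 ∈ I4 k} := ht
    rw [indicator_of_mem this, e2]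
  · rw [indicator_of_notMem ht]
    have : ∀ y : Vec 1, (y, t) ∉ {q : Vec 1 × ℝ | q.2 ∈ I4 k} := fun y => ht
    simp only [indicator_of_notMem (this _)]
    simp

end Pool.Agent.D0H50.Kak
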